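import Pool.Agent.Helper78.BM.Phi
import Pool.Agent.Helper96.FR.Maut

/-!
# Project FP (MP_0f6f3f_an), boundary map: ergodicity

An operator `Y` commuting with `xE`, `W_k` commutes with the fields of unitaries of `L(G)` (`comm_cl`, `comm_fop`). If it commutes with `V_u`, then the vector `Y(1 ⊗ δ₁)` is fixed by `u` for the conjugation
representation `vgR μ a (adR E)` (`ad_fix`). `contVec_vg`: this representation is strongly continuous. `ergU_of`: if the vectors fixed by `U` are fixed by everything and the fixed vectors are the multiples of `1 ⊗ δ₁`, then `ErgU`.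
`fix_ad`: the vectors fixed by `adR E`, if the `U_l δ₁` are total and `G` is icc.
-/

set_option autoImplicit false
set_option linter.unusedSectionVars false

open MeasureTheory Filter Topology

namespace Pool.Agent.Helper78.BM

open Pool.Agent.Helper84 Pool.Agent.Helper84.GN Pool.Agent.Helper84.GN.S3 Pool.Agent.Helper84.GN.S3.X
open Pool.Agent.Helper84.NI Pool.Agent.Helper84.GVN Pool.Agent.Helper90.RK
open Pool.Agent.Helper96.RK Pool.Agent.Helper66.FR Pool.Agent.Helper84.FR Pool.Agent.Helper55.FR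
open Pool.Agent.Helper96.FR (contVec mem_contVec isClosed_contVec)

section Mau

variable {C : Type*} [Group C] [TopologicalSpace C] [IsTopologicalGroup C]
variable {H : Type*} [NormedAddCommGroup H] [InnerProductSpace ℂ H]

theorem tendsto_contVec {σ : C →* (H ≃ₗᵢ[ℂ] H)} {η : H} (hη : η ∈ contVec σ) (a : C) :
    Tendsto (fun g => σ g η) (𝓝 a) (𝓝 (σ a η)) := by
  have h1 : Tendsto (fun g : C => a⁻¹ * g) (𝓝 a) (𝓝 1) := by
    have h : Tendsto (fun g : C => a⁻¹ * g) (𝓝 a) (𝓝 (a⁻¹ * a)) := tendsto_const_nhds.mul tendsto_id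
    rwa [inv_mul_cancel] at h
  have h2 : Tendsto (fun g => σ a (σ (a⁻¹ * g) η)) (𝓝 a) (𝓝 (σ a η)) :=
    ((σ a).continuous.tendsto _).comp ((mem_contVec.1 hη).comp h1)
  refine h2.congr fun g => ?_
  change (σ a * σ (a⁻¹ * g)) η = _
  rw [← map_mul, mul_inv_cancel_left]

/-- The Mautner phenomenon for unipotent groups. -/
theorem mautner_unip {σ : C →* (H ≃ₗᵢ[ℂ] H)} {η : H} (hη : η ∈ contVec σ) {a : C} {s g t : ℕ → C}
    (hs : ∀ n, σ (s n) η = η) (ht : ∀ n, σ (t n) η = η) (hg : Tendsto g atTop (𝓝 1))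
    (ha : Tendsto (fun n => s n * g n * t n) atTop (𝓝 a)) : σ a η = η := by
  have h1 : Tendsto (fun n => σ (s n * g n * t n) η) atTop (𝓝 (σ a η)) := (tendsto_contVec hη a).comp ha
  have h2 : Tendsto (fun n => ‖σ (g n) η - η‖) atTop (𝓝 0) := by
    have h3 := (((mem_contVec.1 hη).comp hg).sub_const η).norm
    rwa [sub_self, norm_zero] at h3
  have h3 : ∀ n, ‖σ (s n * g n * t n) η - η‖ = ‖σ (g n) η - η‖ := by
    intro n
    have e1 : σ (s n * g n * t n) η = σ (s n) (σ (g n) η) := by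
      rw [map_mul, map_mul]
      change σ (s n) (σ (g n) (σ (t n) η)) = _
      rw [ht]
    calc ‖σ (s n * g n * t n) η - η‖ = ‖σ (s n) (σ (g n) η) - σ (s n) η‖ := by rw [e1, hs n]
      _ = ‖σ (s n) (σ (g n) η - η)‖ := by rw [map_sub]
      _ = _ := LinearIsometryEquiv.norm_map _ _
  have h4 : Tendsto (fun n => ‖σ (s n * g n * t n) η - η‖) atTop (𝓝 ‖σ a η - η‖) := (h1.sub_const η).norm
  have h5 := tendsto_nhds_unique (h4.congr h3) h2
  exact sub_eq_zero.1 (norm_eq_zero.1 h5)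

end Mau

section Ad

variable {G Λ : Type} [Group G] [Group Λ]

/-- The representation by conjugation. -/
noncomputable def adR (E : Emb Λ G) : Λ →* (L2 G ≃ₗᵢ[ℂ] L2 G) where
  toFun l := E.conj.U l * jjR E l
  map_one' := by rw [map_one, map_one, mul_one]
  map_mul' l m := by
    ext f : 1
    rw [map_mul, map_mul]
    change E.conj.U l (E.conj.U m (jjR E l (jjR E m f))) = E.conj.U l (jjR E l (E.conj.U m (jjR E m f)))
    congr 1
    exact (jj_comm (E.conj.comm m) (E.conj.comm l) (jjR E m f)).symm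

theorem adR_apply (E : Emb Λ G) (l : Λ) (f : L2 G) : adR E l f = E.conj.U l (jjR E l f) := rfl

theorem jjR_one (E : Emb Λ G) (l : Λ) : jjR E l (dl 1) = (E.conj.U l)⁻¹ (dl 1) := by
  change jjU (E.conj.U l) (dl 1) = _
  have h := jj_dl (commR_inv (E.conj.comm l)) 1
  rw [inv_inv] at h
  rw [h, lamU_one]
  rfl

theorem adR_one (E : Emb Λ G) (l : Λ) : adR E l (dl 1) = dl 1 := by
  rw [adR_apply, jjR_one]
  exact (E.conj.U l).apply_symm_apply _

/-- `E` is full: the vectors `U_l δ₁` are total. -/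
def FullE (E : Emb Λ G) : Prop := ∀ w : L2 G, (∀ l, inner ℂ (E.U l (dl 1)) w = (0 : ℂ)) → w = 0

theorem FullE.conj {E : Emb Λ G} (h : FullE E) : FullE E.conj := by
  intro w hw
  have h1 : cj w = 0 := by
    refine h _ fun l => ?_
    have h2 := hw l
    have h3 : E.conj.U l (dl 1) = cj (E.U l (dl 1)) := by
      change cjU (E.U l) (dl 1) = _
      rw [cjU_apply, cj_dl]
    rw [h3] at h2
    have h4 : (inner ℂ (cj (E.U l (dl 1))) w : ℂ) = (starRingEnd ℂ) (inner ℂ (E.U l (dl 1)) (cj w)) := by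
      rw [lp.inner_eq_tsum, lp.inner_eq_tsum, Complex.conj_tsum]
      refine tsum_congr fun i => ?_
      simp
    rw [h4, map_eq_zero] at h2
    exact h2
  have h5 := congrArg cj h1
  rw [cj_cj] at h5
  rw [h5]
  apply l2_ext
  intro x
  simp

private theorem inner_conv78 (v y : L2 G) (e : G ≃ G) :
    HasSum (fun h => y h * v (e.symm h)) (inner ℂ (cj (permU e v)) y) := by
  have h := lp.hasSum_inner (𝕜 := ℂ) (cj (permU e v)) y
  convert! h using 2 with i
  simp

/-- Fixed vectors of the conjugation representation. -/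
theorem fix_ad {E : Emb Λ G} (hE : FullE E) (hicc : ∀ k : G, k ≠ 1 → (Set.range fun h : G => h * k * h⁻¹).Infinite)
    {v : L2 G} (hv : ∀ l, adR E l v = v) : ∃ c : ℂ, v = c • (dl 1 : L2 G) := by
  have hcl : ∀ g k : G, v (g⁻¹ * k) = v (k * g⁻¹) := by
    intro g k
    let e1 : G ≃ G :=
      { toFun := fun h => k * h⁻¹
        invFun := fun h => h⁻¹ * k
        left_inv := fun h => by group
        right_inv := fun h => by group }
    let e2 : G ≃ G :=
      { toFun := fun h => h⁻¹ * k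
        invFun := fun h => k * h⁻¹
        left_inv := fun h => by group
        right_inv := fun h => by group }
    have key : cj (permU e1 v) - cj (permU e2 v) = 0 := by
      refine hE.conj _ fun l => ?_
      have hl : E.conj.U l v = jjU (E.conj.U l)⁻¹ v := by
        have h1 := hv l
        have h2 : jjU (E.conj.U l)⁻¹ (adR E l v) = E.conj.U l v := by
          rw [adR_apply]
          change jjU (E.conj.U l)⁻¹ (E.conj.U l (jjU (E.conj.U l) v)) = _
          rw [jj_comm (E.conj.comm l) (commR_inv (E.conj.comm l))]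
          have h3 : jjU (E.conj.U l)⁻¹ (jjU (E.conj.U l) v) = v := by
            change (jjU (E.conj.U l)⁻¹ * jjU (E.conj.U l)) v = v
            rw [← jjU_mul, inv_mul_cancel, jjU_one]
            rfl
          rw [h3]
        rw [← h2, h1]
      -- both sides at `k`
      have a1 : HasSum (fun h => v h * cf (E.conj.U l) (k * h⁻¹)) (E.conj.U l v k) := by
        have h := hasSum_clm ((E.conj.U l).toContinuousLinearEquiv : L2 G →L[ℂ] L2 G) v k
        convert! h using 2 with h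
        rw [← (E.conj.comm l).apply_dl]
        rfl
      have a2 : HasSum (fun h => v h * cf (E.conj.U l) (h⁻¹ * k)) (jjU (E.conj.U l)⁻¹ v k) := by
        have h := hasSum_clm ((jjU (E.conj.U l)⁻¹).toContinuousLinearEquiv : L2 G →L[ℂ] L2 G) v k
        convert! h using 2 with h
        have h2 := congrArg (fun f : L2 G => f k) (jj_dl (E.conj.comm l) h)
        simp only [lamU_apply] at h2
        exact congrArg _ h2.symm
      have b1 := inner_conv78 v (cf (E.conj.U l)) e1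
      have b2 := inner_conv78 v (cf (E.conj.U l)) e2
      have c1 : inner ℂ (cj (permU e1 v)) (cf (E.conj.U l)) = E.conj.U l v k := by
        have h1 := (Equiv.hasSum_iff e1).2 b1
        refine h1.unique ?_
        convert! a1 using 2 with h
        simp [e1, mul_comm]
      have c2 : inner ℂ (cj (permU e2 v)) (cf (E.conj.U l)) = jjU (E.conj.U l)⁻¹ v k := by
        have h1 := (Equiv.hasSum_iff e2).2 b2
        refine h1.unique ?_
        convert! a2 using 2 with h
        simp [e2, mul_comm]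
      have c3 : (inner ℂ (cj (permU e1 v) - cj (permU e2 v)) (cf (E.conj.U l)) : ℂ) = 0 := by
        rw [inner_sub_left, c1, c2, hl, sub_self]
      rw [← inner_conj_symm]
      change (starRingEnd ℂ) (inner ℂ (cj (permU e1 v) - cj (permU e2 v)) (cf (E.conj.U l))) = 0
      rw [c3, map_zero]
    have h1 : cj (permU e1 v) g = cj (permU e2 v) g := by
      rw [sub_eq_zero.1 key]
    simp only [cj_apply, permU_apply] at h1
    exact (starRingEnd ℂ).injective h1
  have hz : ∀ k : G, k ≠ 1 → v k = 0 := by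
    intro k hk
    by_contra hne
    have hconst : ∀ h : G, v (h * k * h⁻¹) = v k := by
      intro h
      have h1 := hcl h (h * k)
      rw [inv_mul_cancel_left] at h1
      exact h1.symm
    have hinf := hicc k hk
    have hs := summable_sq v
    have h1 : Set.Finite {x : G | ‖v k‖ ^ 2 / 2 < ‖v x‖ ^ 2} := by
      have h2 := hs.tendsto_cofinite_zero
      have h3 : ∀ᶠ x in cofinite, ‖v x‖ ^ 2 < ‖v k‖ ^ 2 / 2 :=
        h2.eventually (gt_mem_nhds (by positivity))
      rw [eventually_cofinite] at h3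
      refine h3.subset fun x hx => ?_
      simp only [Set.mem_ofPred_eq, not_lt] at hx ⊢
      exact hx.le
    refine hinf (h1.subset ?_)
    rintro _ ⟨h, rfl⟩
    simp only [Set.mem_ofPred_eq]
    rw [hconst h]
    have : 0 < ‖v k‖ ^ 2 := by positivity
    linarith
  refine ⟨v 1, ?_⟩
  apply l2_ext
  intro x
  rw [lp.coeFn_smul, Pi.smul_apply, dl_apply]
  split_ifs with hx
  · rw [hx, smul_eq_mul, mul_one]
  · rw [hz x hx, smul_zero]

end Ad

section Com

variable {G1 X G Λ : Type} [Group G1] [MeasurableSpace X] [MulAction G1 X]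
  [MeasurableConstSMul G1 X] [Group G] [Group Λ] [Countable Λ] {μ : Measure X} [SMulInvariantMeasure G1 X μ]
  [IsProbabilityMeasure μ] {a : Cocy G1 X Λ} {E : Emb Λ G}

/-- The bicommutant theorem for matrix coefficients. -/
theorem comm_abs {ι H K : Type} [NormedAddCommGroup H] [InnerProductSpace ℂ H] [CompleteSpace H]
    [NormedAddCommGroup K] [InnerProductSpace ℂ K] [CompleteSpace K] {Y : K →L[ℂ] K} {i1 i2 : H →L[ℂ] K}
    {lam : ι → (H ≃ₗᵢ[ℂ] H)} {L : ι → (K ≃ₗᵢ[ℂ] K)} {u : H ≃ₗᵢ[ℂ] H} {U : K ≃ₗᵢ[ℂ] K}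
    (h1 : ∀ k x, i1 (lam k x) = L k (i1 x)) (h2 : ∀ k x, i2 (lam k x) = L k (i2 x))
    (hu1 : ∀ x, i1 (u x) = U (i1 x)) (hu2 : ∀ x, i2 (u x) = U (i2 x)) (hY : ∀ k y, Y (L k y) = L k (Y y))
    (hb : ∀ S : H →L[ℂ] H, (∀ k f, S (lam k f) = lam k (S f)) → ∀ f, S (u f) = u (S f)) (v w : H) :
    (inner ℂ (i2 w) (Y (U (i1 v))) : ℂ) = inner ℂ (i2 w) (U (Y (i1 v))) := by
  have hS : ∀ k f, ((ContinuousLinearMap.adjoint i2).comp (Y.comp i1)) (lam k f) =
      lam k (((ContinuousLinearMap.adjoint i2).comp (Y.comp i1)) f) := by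
    intro k f
    refine ext_inner_left ℂ fun x => ?_
    obtain ⟨y, rfl⟩ := (lam k).surjective x
    rw [LinearIsometryEquiv.inner_map_map, ContinuousLinearMap.comp_apply, ContinuousLinearMap.comp_apply,
      ContinuousLinearMap.comp_apply, ContinuousLinearMap.comp_apply, ContinuousLinearMap.adjoint_inner_right,
      ContinuousLinearMap.adjoint_inner_right, h1, h2, hY, LinearIsometryEquiv.inner_map_map]
  have h5 := hb _ hS v
  obtain ⟨w', rfl⟩ := u.surjective w
  have h6 : (inner ℂ (u w') (((ContinuousLinearMap.adjoint i2).comp (Y.comp i1)) (u v)) : ℂ) =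
      inner ℂ w' (((ContinuousLinearMap.adjoint i2).comp (Y.comp i1)) v) := by
    rw [h5, LinearIsometryEquiv.inner_map_map]
  rw [ContinuousLinearMap.comp_apply, ContinuousLinearMap.comp_apply,
      ContinuousLinearMap.comp_apply, ContinuousLinearMap.comp_apply, ContinuousLinearMap.adjoint_inner_right,
      ContinuousLinearMap.adjoint_inner_right, hu1] at h6
  rw [h6, hu2, LinearIsometryEquiv.inner_map_map]

theorem clU_xE_cst {t : Set X} (ht : MeasurableSet t) (U : L2 G ≃ₗᵢ[ℂ] L2 G) (x : L2 G) :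
    xE μ (L2 G) t (cst μ (U x)) = clU μ U (xE μ (L2 G) t (cst μ x)) := by
  rw [clU_apply]
  unfold xE
  rw [cl_mx _ (BM.ind ht), cl_cst]
  rfl

/-- An operator commuting with the `W_k` commutes with the constant fields of unitaries of `L(G)`. -/
theorem comm_cl {Y : XL μ (L2 G) →L[ℂ] XL μ (L2 G)}
    (hW : ∀ (k : G) φ, Y (Wk μ k φ) = Wk μ k (Y φ)) {u : L2 G ≃ₗᵢ[ℂ] L2 G} (hu : CommR u) (φ : XL μ (L2 G)) :
    Y (clU μ u φ) = clU μ u (Y φ) := by
  refine xl_induction (P := fun φ => Y (clU μ u φ) = clU μ u (Y φ)) (fun s hs v => ?_)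
    (fun f g h1 h2 => by rw [map_add, map_add, map_add, map_add, h1, h2])
    (isClosed_eq (Y.continuous.comp (clU μ u).continuous) ((clU μ u).continuous.comp Y.continuous)) φ
  refine ext_inner_left ℂ fun ψ => ?_
  refine xl_induction (P := fun ψ => inner ℂ ψ (Y (clU μ u (xE μ (L2 G) s (cst μ v)))) =
      (inner ℂ ψ (clU μ u (Y (xE μ (L2 G) s (cst μ v)))) : ℂ)) (fun s' hs' w => ?_)
    (fun f g h1 h2 => by rw [inner_add_left, inner_add_left, h1, h2])
    (isClosed_eq (continuous_id.inner continuous_const) (continuous_id.inner continuous_const)) ψ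
  exact comm_abs (Y := Y)
    (i1 := (xE μ (L2 G) s).comp (cst μ : L2 G →ₗᵢ[ℂ] XL μ (L2 G)).toContinuousLinearMap)
    (i2 := (xE μ (L2 G) s').comp (cst μ : L2 G →ₗᵢ[ℂ] XL μ (L2 G)).toContinuousLinearMap)
    (lam := fun k : G => lamU k) (L := fun k => clU μ (lamU k)) (u := u) (U := clU μ u)
    (fun k x => clU_xE_cst hs (lamU k) x) (fun k x => clU_xE_cst hs' (lamU k) x)
    (fun x => clU_xE_cst hs u x) (fun x => clU_xE_cst hs' u x) (fun k y => hW k y) hu.inL v w

/-- The fields of unitaries of `L(G)`. -/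
noncomputable def fld (μ : Measure X) [SMulInvariantMeasure G1 X μ] (a : Cocy G1 X Λ) (E : Emb Λ G) (g : G1) :
    XL μ (L2 G) →L[ℂ] XL μ (L2 G) :=
  fop μ fun x => ((E.conj.U (a.a g (g⁻¹ • x))).toContinuousLinearEquiv : L2 G →L[ℂ] L2 G)

theorem fld_apply (g : G1) (φ : XL μ (L2 G)) :
    ∀ᵐ x ∂μ, fld μ a E g φ x = E.conj.U (a.a g (g⁻¹ • x)) (φ x) :=
  fop_apply (fm_vg a E.conj.U g) φ

theorem fld_Vq (g : G1) (φ : XL μ (L2 G)) : fld μ a E g (Vq μ a E g φ) = vg μ a (adR E) g φ := by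
  refine xl_ext ?_
  filter_upwards [fld_apply (a := a) (E := E) g (Vq μ a E g φ), vg_apply a (jjR E) g φ, vg_apply a (adR E) g φ]
    with x h1 h2 h3
  rw [h1, h3, adR_apply]
  exact congrArg _ h2

theorem comm_fld {Y : XL μ (L2 G) →L[ℂ] XL μ (L2 G)}
    (hD : ∀ D : Set X, MeasurableSet D → ∀ φ, Y (xE μ (L2 G) D φ) = xE μ (L2 G) D (Y φ))
    (hW : ∀ (k : G) φ, Y (Wk μ k φ) = Wk μ k (Y φ)) (g : G1) (φ : XL μ (L2 G)) :
    Y (fld μ a E g φ) = fld μ a E g (Y φ) := by
  have hm : ∀ l : Λ, MeasurableSet {x : X | a.a g (g⁻¹ • x) = l} := fun l =>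
    (measurable_const_smul g⁻¹) (a.meas g l)
  have key : ∀ (l : Λ) (ψ : XL μ (L2 G)), xE μ (L2 G) {x | a.a g (g⁻¹ • x) = l} (fld μ a E g ψ) =
      xE μ (L2 G) {x | a.a g (g⁻¹ • x) = l} (clU μ (E.conj.U l) ψ) := by
    intro l ψ
    refine xl_ext ?_
    filter_upwards [xE_apply (hm l) (fld μ a E g ψ), xE_apply (hm l) (clU μ (E.conj.U l) ψ),
      fld_apply (a := a) (E := E) g ψ, clU_apply_ae (μ := μ) (E.conj.U l) ψ] with x h1 h2 h3 h4
    rw [h1, h2, h3, h4]
    by_cases hx : x ∈ {x : X | a.a g (g⁻¹ • x) = l}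
    · have hx' : a.a g (g⁻¹ • x) = l := hx
      rw [hx']
    · rw [Set.indicator_of_notMem hx, zero_smul, zero_smul]
  have h1 : ∀ l : Λ, xE μ (L2 G) {x | a.a g (g⁻¹ • x) = l} (Y (fld μ a E g φ)) =
      xE μ (L2 G) {x | a.a g (g⁻¹ • x) = l} (fld μ a E g (Y φ)) := by
    intro l
    rw [← hD _ (hm l), key, hD _ (hm l), comm_cl hW (E.conj.comm l), key]
  refine xl_ext ?_
  have h2 : ∀ᵐ x ∂μ, ∀ l : Λ, x ∈ {x | a.a g (g⁻¹ • x) = l} →
      Y (fld μ a E g φ) x = fld μ a E g (Y φ) x := by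
    rw [ae_all_iff]
    intro l
    filter_upwards [xE_apply (hm l) (Y (fld μ a E g φ)), xE_apply (hm l) (fld μ a E g (Y φ))] with x h3 h4 hx
    have e : ({x : X | a.a g (g⁻¹ • x) = l}.indicator (fun _ => (1 : ℂ)) x) = 1 :=
      Set.indicator_of_mem (show x ∈ {x : X | a.a g (g⁻¹ • x) = l} from hx) _
    rw [h1 l, e, one_smul] at h3
    rw [e, one_smul] at h4
    rw [← h3, h4]
  filter_upwards [h2] with x hx
  exact hx _ rfl

/-- The vector of a commuting operator is fixed. -/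
theorem ad_fix {Y : XL μ (L2 G) →L[ℂ] XL μ (L2 G)}
    (hD : ∀ D : Set X, MeasurableSet D → ∀ φ, Y (xE μ (L2 G) D φ) = xE μ (L2 G) D (Y φ))
    (hW : ∀ (k : G) φ, Y (Wk μ k φ) = Wk μ k (Y φ)) {g : G1}
    (hg : ∀ φ, Y (Vq μ a E g φ) = Vq μ a E g (Y φ)) :
    vg μ a (adR E) g (Y (cst μ (dl 1))) = Y (cst μ (dl 1)) := by
  have h1 : vg μ a (adR E) g (cst μ (dl 1) : XL μ (L2 G)) = cst μ (dl 1) := by
    refine xl_ext ?_
    filter_upwards [vg_apply a (adR E) g (cst μ (dl 1) : XL μ (L2 G)), cst_apply (μ := μ) (dl 1 : L2 G),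
      (measurePreserving_smul g⁻¹ μ).quasiMeasurePreserving.ae (cst_apply (μ := μ) (dl 1 : L2 G))] with x h1 h2 h3
    rw [h1, h2, h3, adR_one]
  rw [← fld_Vq, ← hg, ← comm_fld hD hW, fld_Vq, h1]

variable (μ a E) in
/-- The vectors fixed by the conjugation representation are trivial. -/
def InvT : Prop := ∀ φ : XL μ (L2 G), (∀ g : G1, vg μ a (adR E) g φ = φ) → ∃ c : ℂ, φ = c • cst μ (dl 1)

theorem ergU_of {U : Set G1} (hinv : InvT μ a E)
    (hU : ∀ φ : XL μ (L2 G), (∀ u ∈ U, vg μ a (adR E) u φ = φ) → ∀ g : G1, vg μ a (adR E) g φ = φ) :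
    ErgU μ a E U := by
  intro Y hD hW hV
  obtain ⟨c, hc⟩ := hinv (Y (cst μ (dl 1))) (hU _ fun u hu => ad_fix hD hW (hV u hu))
  refine ⟨c, fun φ => ?_⟩
  refine xl_induction (P := fun φ => Y φ = c • φ) (fun s hs v => ?_)
    (fun f g h1 h2 => by rw [map_add, smul_add, h1, h2])
    (isClosed_eq Y.continuous (continuous_const_smul c)) φ
  have h1 : ((Y.comp (xE μ (L2 G) s)).comp (cst μ : L2 G →ₗᵢ[ℂ] XL μ (L2 G)).toContinuousLinearMap) =
      c • ((xE μ (L2 G) s).comp (cst μ : L2 G →ₗᵢ[ℂ] XL μ (L2 G)).toContinuousLinearMap) := by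
    refine clm_ext fun g => ?_
    change Y (xE μ (L2 G) s (cst μ (dl g))) = c • xE μ (L2 G) s (cst μ (dl g))
    have h2 : (cst μ (dl g) : XL μ (L2 G)) = Wk μ g (cst μ (dl 1)) := by
      rw [Wk, cl_cst]
      congr 1
      change dl g = lamU g (dl 1)
      rw [lamU_dl, mul_one]
    rw [hD s hs, h2, hW, hc, map_smul, map_smul]
  exact DFunLike.congr_fun h1 v

end Com

section Cont

variable {G1 X Λ H : Type} [Group G1] [TopologicalSpace G1] [IsTopologicalGroup G1] [MeasurableSpace X] [MulAction G1 X]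
  [MeasurableConstSMul G1 X] [Group Λ] [Countable Λ] {μ : Measure X} [SMulInvariantMeasure G1 X μ]
  [IsProbabilityMeasure μ] {a : Cocy G1 X Λ} [NormedAddCommGroup H] [InnerProductSpace ℂ H]

variable (G1 μ) in
/-- Strong continuity of the action on the measure algebra. -/
def Kcont : Prop := ∀ D : Set X, MeasurableSet D → Tendsto (fun g : G1 => μ (symmDiff ((fun x => g • x) ⁻¹' D) D)) (𝓝 1) (𝓝 0)

/-- The representations `vgR` are strongly continuous. -/
theorem contVec_vg (h3 : Tendsto (fun g : G1 => μ {x | a.a g x ≠ 1}) (𝓝 1) (𝓝 0)) (hK : Kcont G1 μ)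
    (A : Λ →* (H ≃ₗᵢ[ℂ] H)) (φ : XL μ H) : φ ∈ contVec (vgR μ a A) := by
  refine xl_induction (P := fun φ => φ ∈ contVec (vgR μ a A)) (fun s hs v => ?_)
    (fun f g h1 h2 => Submodule.add_mem _ h1 h2) (isClosed_contVec _) φ
  rw [mem_contVec]
  set φ : XL μ H := xE μ H s (cst μ v) with hφ
  rw [tendsto_iff_norm_sub_tendsto_zero]
  have h1 : ∀ g : G1, ‖vgR μ a A g φ - φ‖ ^ 2 ≤
      (2 * ‖v‖) ^ 2 * ((μ {x | a.a g x ≠ 1}).toReal + (μ (symmDiff ((fun x => g⁻¹ • x) ⁻¹' s) s)).toReal) := by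
    intro g
    have hm1 : MeasurableSet {x : X | a.a g (g⁻¹ • x) ≠ 1} :=
      ((measurable_const_smul g⁻¹) (a.meas g 1)).compl
    have hμ : μ {x : X | a.a g (g⁻¹ • x) ≠ 1} = μ {x | a.a g x ≠ 1} :=
      (measurePreserving_smul g⁻¹ μ).measure_preimage (a.meas g 1).compl.nullMeasurableSet
    have hm2 : MeasurableSet (symmDiff ((fun x => g⁻¹ • x) ⁻¹' s) s) :=
      ((measurable_const_smul g⁻¹) hs).symmDiff hs
    have hb : ∀ᵐ x ∂μ, ‖(vgR μ a A g φ - φ) x‖ ^ 2 ≤
        ({x : X | a.a g (g⁻¹ • x) ≠ 1} ∪ symmDiff ((fun x => g⁻¹ • x) ⁻¹' s) s).indicator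
          (fun _ => (2 * ‖v‖) ^ 2) x := by
      filter_upwards [Lp.coeFn_sub (vgR μ a A g φ) φ, vg_apply a A g φ, xE_apply hs (cst μ v : XL μ H),
        cst_apply (μ := μ) v,
        (measurePreserving_smul g⁻¹ μ).quasiMeasurePreserving.ae (xE_apply hs (cst μ v : XL μ H)),
        (measurePreserving_smul g⁻¹ μ).quasiMeasurePreserving.ae (cst_apply (μ := μ) v)] with x e1 e2 e3 e4 e5 e6
      rw [e1, Pi.sub_apply, vgR_apply, e2, hφ, e3, e5, e4, e6]
      have hn : ∀ y : X, ‖s.indicator (fun _ => (1 : ℂ)) y • v‖ ≤ ‖v‖ := by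
        intro y
        rw [norm_smul]
        refine mul_le_of_le_one_left (norm_nonneg _) ?_
        by_cases h : y ∈ s <;> simp [h]
      by_cases hx : x ∈ {x : X | a.a g (g⁻¹ • x) ≠ 1} ∪ symmDiff ((fun x => g⁻¹ • x) ⁻¹' s) s
      · rw [Set.indicator_of_mem hx]
        refine pow_le_pow_left₀ (norm_nonneg _) ((norm_sub_le _ _).trans ?_) 2
        rw [LinearIsometryEquiv.norm_map]
        linarith [hn (g⁻¹ • x), hn x]
      · rw [Set.indicator_of_notMem hx]
        have hx1 : a.a g (g⁻¹ • x) = 1 := by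
          by_contra hc
          exact hx (Or.inl hc)
        have hx2 : (g⁻¹ • x ∈ s ↔ x ∈ s) := by
          by_contra hc
          refine hx (Or.inr ?_)
          rw [Set.mem_symmDiff]
          simp only [Set.mem_preimage]
          tauto
        have hx3 : s.indicator (fun _ => (1 : ℂ)) (g⁻¹ • x) = s.indicator (fun _ => (1 : ℂ)) x := by
          by_cases h : x ∈ s
          · rw [Set.indicator_of_mem h, Set.indicator_of_mem (hx2.2 h)]
          · rw [Set.indicator_of_notMem h, Set.indicator_of_notMem fun h' => h (hx2.1 h')]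
        rw [hx1, map_one, hx3]
        simp
    rw [xl_norm_sq]
    refine (integral_mono_ae ?_ ?_ hb).trans ?_
    · exact xl_int _
    · exact (integrable_const _).indicator (hm1.union hm2)
    · rw [integral_indicator (hm1.union hm2), setIntegral_const, smul_eq_mul, mul_comm]
      refine mul_le_mul_of_nonneg_left ?_ (by positivity)
      rw [← hμ]
      exact measureReal_union_le _ _
  have h2 : Tendsto (fun g : G1 => (2 * ‖v‖) ^ 2 *
      ((μ {x | a.a g x ≠ 1}).toReal + (μ (symmDiff ((fun x => g⁻¹ • x) ⁻¹' s) s)).toReal)) (𝓝 1) (𝓝 0) := by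
    have e1 : Tendsto (fun g : G1 => (μ {x | a.a g x ≠ 1}).toReal) (𝓝 1) (𝓝 0) := by
      exact (ENNReal.tendsto_toReal ENNReal.zero_ne_top).comp h3
    have e2 : Tendsto (fun g : G1 => (μ (symmDiff ((fun x => g⁻¹ • x) ⁻¹' s) s)).toReal) (𝓝 1) (𝓝 0) := by
      have hi : Tendsto (fun g : G1 => g⁻¹) (𝓝 1) (𝓝 1) := by
        have h : Tendsto (fun g : G1 => g⁻¹) (𝓝 1) (𝓝 (1 : G1)⁻¹) := tendsto_inv 1
        rwa [inv_one] at h
      exact (ENNReal.tendsto_toReal ENNReal.zero_ne_top).comp ((hK s hs).comp hi)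
    have h := (e1.add e2).const_mul ((2 * ‖v‖) ^ 2)
    simpa using h
  have h4 : Tendsto (fun g : G1 => ‖vgR μ a A g φ - φ‖ ^ 2) (𝓝 1) (𝓝 0) :=
    squeeze_zero (fun _ => by positivity) h1 h2
  have h5 := h4.sqrt
  simp only [Real.sqrt_zero, Real.sqrt_sq (norm_nonneg _)] at h5
  exact h5

end Cont

end Pool.Agent.Helper78.BM
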