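import Pool.Agent.Helper78.BM.Cen

/-!
# Project FP (MP_0f6f3f_an), boundary map: the projection valued measure

`Ctr b`: the elements contracted by `b`. `ErgU μ a E U`: operators commuting with `xE`, the `W_k` and `V_u`, `u ∈ U`, are scalars. `BMap`: `T* T = p > 0` and `T T*` is local. `B.Ph f = p⁻¹ T* f T`: a
homomorphism on the functions which are uniformly continuous at infinity (`Ph_mul`), `T Ph f = f T` (`T_Ph`), commuting with `xE`, `V_q` for `q` contracted or in the centraliser of `b`, covariant for the `W_k`.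
-/

set_option autoImplicit false
set_option linter.unusedSectionVars false

open MeasureTheory Filter Topology

namespace Pool.Agent.Helper78.BM

open Pool.Agent.Helper84 Pool.Agent.Helper84.GN Pool.Agent.Helper84.GN.S3 Pool.Agent.Helper84.GN.S3.X
open Pool.Agent.Helper84.NI Pool.Agent.Helper84.GVN Pool.Agent.Helper90.RK
open Pool.Agent.Helper96.RK Pool.Agent.Helper66.FR Pool.Agent.Helper84.FR Pool.Agent.Helper55.FR

variable {G1 X G Λ : Type} [Group G1] [TopologicalSpace G1] [IsTopologicalGroup G1] [MeasurableSpace X] [MulAction G1 X]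
  [MeasurableConstSMul G1 X] [Group G] [Group Λ] [Countable Λ] {μ : Measure X} [SMulInvariantMeasure G1 X μ]
  [IsProbabilityMeasure μ] {a : Cocy G1 X Λ} {E : Emb Λ G} {R : Reg G} {pd : PD G} {b : ℕ → G1}

/-- Contracted elements. -/
def Ctr (b : ℕ → G1) : Set G1 := {q | Tendsto (fun n => b n * q * (b n)⁻¹) (hyperfilter ℕ : Filter ℕ) (𝓝 1)}

/-- Operators commuting with the base, the `W_k` and the `V_u`, `u ∈ U`, are scalars. -/
def ErgU (μ : Measure X) [SMulInvariantMeasure G1 X μ] (a : Cocy G1 X Λ) (E : Emb Λ G) (U : Set G1) : Prop :=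
  ∀ Y : XL μ (L2 G) →L[ℂ] XL μ (L2 G),
    (∀ D : Set X, MeasurableSet D → ∀ φ, Y (xE μ (L2 G) D φ) = xE μ (L2 G) D (Y φ)) →
    (∀ (k : G) φ, Y (Wk μ k φ) = Wk μ k (Y φ)) →
    (∀ u ∈ U, ∀ φ, Y (Vq μ a E u φ) = Vq μ a E u (Y φ)) → ∃ c : ℂ, ∀ φ, Y φ = c • φ

section Unit

theorem inner_Vq (q : G1) (φ ψ : XL μ (L2 G)) : inner ℂ (Vq μ a E q φ) (Vq μ a E q ψ) = inner ℂ φ ψ :=
  (vgR μ a (jjR E) q).inner_map_map φ ψ

theorem Vq_inv (q : G1) (φ : XL μ (L2 G)) : Vq μ a E q⁻¹ (Vq μ a E q φ) = φ := by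
  rw [← vg_mul, inv_mul_cancel, vg_one]

theorem Vq_inv' (q : G1) (φ : XL μ (L2 G)) : Vq μ a E q (Vq μ a E q⁻¹ φ) = φ := by
  rw [← vg_mul, mul_inv_cancel, vg_one]

theorem inner_Wk (k : G) (φ ψ : XL μ (L2 G)) : inner ℂ (Wk μ k φ) (Wk μ k ψ) = inner ℂ φ ψ :=
  (clU μ (lamU k)).inner_map_map φ ψ

theorem Wk_mul (k l : G) (φ : XL μ (L2 G)) : Wk μ (k * l) φ = Wk μ k (Wk μ l φ) := by
  have h := congrArg (fun A : XL μ (L2 G) ≃ₗᵢ[ℂ] XL μ (L2 G) => A φ) ((clR μ (lamR G)).map_mul k l)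
  exact h

theorem Wk_one (φ : XL μ (L2 G)) : Wk μ (1 : G) φ = φ := by
  have h := congrArg (fun A : XL μ (L2 G) ≃ₗᵢ[ℂ] XL μ (L2 G) => A φ) ((clR μ (lamR G)).map_one)
  exact h

theorem Wk_inv (k : G) (φ : XL μ (L2 G)) : Wk μ k⁻¹ (Wk μ k φ) = φ := by
  rw [← Wk_mul, inv_mul_cancel, Wk_one]

theorem Wk_inv' (k : G) (φ : XL μ (L2 G)) : Wk μ k (Wk μ k⁻¹ φ) = φ := by
  rw [← Wk_mul, mul_inv_cancel, Wk_one]

theorem inner_XBU (k : G) (x y : XUa μ R) : inner ℂ (XBU R k x) (XBU R k y) = inner ℂ x y :=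
  (XBU R k).inner_map_map x y

end Unit

/-- Operators of the form `T* S T`: commutation with a unitary. -/
theorem adj_comm {H K : Type} [NormedAddCommGroup H] [InnerProductSpace ℂ H] [CompleteSpace H]
    [NormedAddCommGroup K] [InnerProductSpace ℂ K] [CompleteSpace K] (T : H →L[ℂ] K) {M M' : K →L[ℂ] K}
    {u : H → H} {s : K → K} (hu : ∀ x y, inner ℂ (u x) (u y) = inner ℂ x y) (husur : ∀ y, ∃ x, u x = y)
    (hs : ∀ x y, inner ℂ (s x) (s y) = inner ℂ x y)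
    (h : ∀ x, T (u x) = s (T x)) (hM : ∀ x, M' (s x) = s (M x)) (x : H) :
    ContinuousLinearMap.adjoint T (M' (T (u x))) = u (ContinuousLinearMap.adjoint T (M (T x))) := by
  refine ext_inner_left ℂ fun y => ?_
  obtain ⟨z, rfl⟩ := husur y
  rw [ContinuousLinearMap.adjoint_inner_right, h, h, hM, hs, hu, ContinuousLinearMap.adjoint_inner_right]

theorem adj_W (f : G → ℂ) {C : ℝ} (hC : ∀ γ, ‖f γ‖ ≤ C) (k : G) (φ : XL μ (L2 G)) :
    ContinuousLinearMap.adjoint (Tb μ a E R b) (Mf μ R (fun γ => f (γ * k)) (Tb μ a E R b (Wk μ k φ))) =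
      Wk μ k (ContinuousLinearMap.adjoint (Tb μ a E R b) (Mf μ R f (Tb μ a E R b φ))) :=
  adj_comm (Tb μ a E R b) (M := Mf μ R f) (M' := Mf μ R fun γ => f (γ * k)) (u := Wk μ k) (s := XBU R k)
    (inner_Wk k) (fun y => ⟨Wk μ k⁻¹ y, Wk_inv' k y⟩) (inner_XBU k) (Tb_W k) (fun x => (Mf_XBU hC k x).symm) φ

theorem adj_contr (h3 : Tendsto (fun g : G1 => μ {x | a.a g x ≠ 1}) (𝓝 1) (𝓝 0)) (f : G → ℂ) {q : G1}
    (hq : q ∈ Ctr b) (φ : XL μ (L2 G)) :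
    ContinuousLinearMap.adjoint (Tb μ a E R b) (Mf μ R f (Tb μ a E R b (Vq μ a E q φ))) =
      Vq μ a E q (ContinuousLinearMap.adjoint (Tb μ a E R b) (Mf μ R f (Tb μ a E R b φ))) :=
  adj_comm (Tb μ a E R b) (M := Mf μ R f) (M' := Mf μ R f) (u := Vq μ a E q)
    (s := sSU μ R fun n => b n * q * (b n)⁻¹)
    (inner_Vq q) (fun y => ⟨Vq μ a E q⁻¹ y, Vq_inv' q y⟩) (inner_sSU _) (Tb_contr h3 hq)
    (fun x => (Mf_sSU _ x).symm) φ

/-- Operators of the form `T* S T`: commutation with a projection. -/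
theorem adj_comm_sa {H K : Type} [NormedAddCommGroup H] [InnerProductSpace ℂ H] [CompleteSpace H]
    [NormedAddCommGroup K] [InnerProductSpace ℂ K] [CompleteSpace K] (T : H →L[ℂ] K) {M : K →L[ℂ] K}
    {u : H → H} {s : K → K} (hu : ∀ x y, inner ℂ (u x) y = inner ℂ x (u y))
    (hs : ∀ x y, inner ℂ (s x) y = inner ℂ x (s y))
    (h : ∀ x, T (u x) = s (T x)) (hM : ∀ x, M (s x) = s (M x)) (x : H) :
    ContinuousLinearMap.adjoint T (M (T (u x))) = u (ContinuousLinearMap.adjoint T (M (T x))) := by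
  refine ext_inner_left ℂ fun y => ?_
  rw [ContinuousLinearMap.adjoint_inner_right, h, hM, ← hu, ContinuousLinearMap.adjoint_inner_right, h, ← hs]

theorem adj_xE (f : G → ℂ) {D : Set X} (hD : MeasurableSet D) (φ : XL μ (L2 G)) :
    ContinuousLinearMap.adjoint (Tb μ a E R b) (Mf μ R f (Tb μ a E R b (xE μ (L2 G) D φ))) =
      xE μ (L2 G) D (ContinuousLinearMap.adjoint (Tb μ a E R b) (Mf μ R f (Tb μ a E R b φ))) :=
  adj_comm_sa (Tb μ a E R b) (M := Mf μ R f) (u := xE μ (L2 G) D) (s := (pyU μ b R).p D)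
    (xE_symm hD) ((pyU μ b R).symm D hD) (Tb_xE hD)
    (fun x => (hom_rst (xmU_hom b (mulop f)) _ _ fun _ hx => mulop_memX R hx).y D hD x) φ

/-- The mass. -/
theorem exists_mass (hE : ErgU μ a E (Ctr b)) (h3 : Tendsto (fun g : G1 => μ {x | a.a g x ≠ 1}) (𝓝 1) (𝓝 0)) :
    ∀ φ, ContinuousLinearMap.adjoint (Tb μ a E R b) (Tb μ a E R b φ) =
      ((‖XPpr R (vec μ a E b)‖ ^ 2 : ℝ) : ℂ) • φ := by
  have h1 : ∀ x : XUa μ R, Mf μ R (fun _ => 1) x = x := fun x => by rw [Mf_const, one_smul]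
  obtain ⟨c, hc⟩ := hE ((ContinuousLinearMap.adjoint (Tb μ a E R b)).comp (Tb μ a E R b))
    (fun D hD φ => by
      have h := adj_xE (a := a) (E := E) (R := R) (b := b) (fun _ => 1) hD φ
      rw [h1, h1] at h
      exact h)
    (fun k φ => by
      have h := adj_W (μ := μ) (a := a) (E := E) (R := R) (b := b) (fun _ => 1) (C := 1) (fun _ => by simp) k φ
      rw [h1, h1] at h
      exact h)
    (fun u hu φ => by
      have h := adj_contr (E := E) (R := R) h3 (fun _ => 1) hu φ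
      rw [h1, h1] at h
      exact h)
  have h2 : ((‖XPpr R (vec μ a E b)‖ ^ 2 : ℝ) : ℂ) = c := by
    have h4 := hc (cst μ (dl 1))
    have h5 : inner ℂ (cst μ (dl 1 : L2 G)) (((ContinuousLinearMap.adjoint (Tb μ a E R b)).comp (Tb μ a E R b))
        (cst μ (dl 1))) = ((‖XPpr R (vec μ a E b)‖ ^ 2 : ℝ) : ℂ) := by
      rw [ContinuousLinearMap.comp_apply, ContinuousLinearMap.adjoint_inner_right, Tb_one,
        inner_self_eq_norm_sq_to_K]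
      norm_cast
    rw [h4, inner_smul_right, inner_self_eq_norm_sq_to_K, LinearIsometry.norm_map, norm_dl] at h5
    rw [← h5]
    simp
  intro φ
  rw [h2]
  exact hc φ

variable (μ a E R pd b) in
/-- The boundary map: `T* T = p` and `T T*` is local. -/
structure BMap where
  /-- the mass -/
  p : ℝ
  pos : 0 < p
  TT : ∀ φ, ContinuousLinearMap.adjoint (Tb μ a E R b) (Tb μ a E R b φ) = (p : ℂ) • φ
  loc : LocX R pd ((Tb μ a E R b).comp (ContinuousLinearMap.adjoint (Tb μ a E R b)))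

namespace BMap

variable (B : BMap μ a E R pd b)

theorem pne : (B.p : ℂ) ≠ 0 := Complex.ofReal_ne_zero.2 B.pos.ne'

theorem inner_T (φ ψ : XL μ (L2 G)) : inner ℂ (Tb μ a E R b φ) (Tb μ a E R b ψ) = (B.p : ℂ) * inner ℂ φ ψ := by
  rw [← ContinuousLinearMap.adjoint_inner_right, B.TT, inner_smul_right]

include B in
theorem T_inj {φ ψ : XL μ (L2 G)} (h : Tb μ a E R b φ = Tb μ a E R b ψ) : φ = ψ := by
  have h1 := congrArg (ContinuousLinearMap.adjoint (Tb μ a E R b)) h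
  rw [B.TT, B.TT] at h1
  exact smul_right_injective _ B.pne h1

/-- The operator `p⁻¹ T* f T`. -/
noncomputable def Ph (f : G → ℂ) : XL μ (L2 G) →L[ℂ] XL μ (L2 G) :=
  (B.p : ℂ)⁻¹ • (ContinuousLinearMap.adjoint (Tb μ a E R b)).comp ((Mf μ R f).comp (Tb μ a E R b))

theorem Ph_apply (f : G → ℂ) (φ : XL μ (L2 G)) :
    B.Ph f φ = (B.p : ℂ)⁻¹ • ContinuousLinearMap.adjoint (Tb μ a E R b) (Mf μ R f (Tb μ a E R b φ)) := rfl

/-- **The boundary map is multiplicative**: `T Φ(f) = f T`. -/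
theorem T_Ph {f : G → ℂ} (hf : AV R pd f) (φ : XL μ (L2 G)) :
    Tb μ a E R b (B.Ph f φ) = Mf μ R f (Tb μ a E R b φ) := by
  rw [Ph_apply, map_smul]
  have h1 := loc_Mf B.loc hf (Tb μ a E R b φ)
  change Tb μ a E R b (ContinuousLinearMap.adjoint (Tb μ a E R b) (Mf μ R f (Tb μ a E R b φ))) =
    Mf μ R f (Tb μ a E R b (ContinuousLinearMap.adjoint (Tb μ a E R b) (Tb μ a E R b φ))) at h1
  rw [h1, B.TT, map_smul, map_smul, smul_smul, inv_mul_cancel₀ B.pne, one_smul]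

theorem inner_Ph (f : G → ℂ) (φ ψ : XL μ (L2 G)) :
    inner ℂ φ (B.Ph f ψ) = (B.p : ℂ)⁻¹ * inner ℂ (Tb μ a E R b φ) (Mf μ R f (Tb μ a E R b ψ)) := by
  rw [Ph_apply, inner_smul_right, ContinuousLinearMap.adjoint_inner_right]

theorem Ph_mul {f g : G → ℂ} {C : ℝ} (hC : ∀ γ, ‖f γ‖ ≤ C) (hg : AV R pd g) (φ : XL μ (L2 G)) :
    B.Ph f (B.Ph g φ) = B.Ph (fun γ => f γ * g γ) φ := by
  obtain ⟨D, hD⟩ := hg.bdd
  rw [Ph_apply, B.T_Ph hg, Mf_mul hC hD, Ph_apply]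

theorem Ph_add {f g : G → ℂ} {C D : ℝ} (hC : ∀ γ, ‖f γ‖ ≤ C) (hD : ∀ γ, ‖g γ‖ ≤ D) (φ : XL μ (L2 G)) :
    B.Ph (fun γ => f γ + g γ) φ = B.Ph f φ + B.Ph g φ := by
  rw [Ph_apply, Mf_add hC hD, map_add, smul_add, Ph_apply, Ph_apply]

theorem Ph_sub {f g : G → ℂ} {C D : ℝ} (hC : ∀ γ, ‖f γ‖ ≤ C) (hD : ∀ γ, ‖g γ‖ ≤ D) (φ : XL μ (L2 G)) :
    B.Ph (fun γ => f γ - g γ) φ = B.Ph f φ - B.Ph g φ := by
  rw [Ph_apply, Mf_sub hC hD, map_sub, smul_sub, Ph_apply, Ph_apply]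

theorem Ph_const (c : ℂ) (φ : XL μ (L2 G)) : B.Ph (fun _ => c) φ = c • φ := by
  rw [Ph_apply, Mf_const, map_smul, B.TT, smul_smul, smul_smul, mul_comm (B.p : ℂ)⁻¹, mul_assoc,
    inv_mul_cancel₀ B.pne, mul_one]

theorem Ph_smul {f : G → ℂ} {C : ℝ} (hC : ∀ γ, ‖f γ‖ ≤ C) (c : ℂ) (φ : XL μ (L2 G)) :
    B.Ph (fun γ => c * f γ) φ = c • B.Ph f φ := by
  rw [Ph_apply, Mf_smul hC, map_smul, Ph_apply, smul_comm]

theorem Ph_congr {f g : G → ℂ} {C D : ℝ} (hC : ∀ γ, ‖f γ‖ ≤ C) (hD : ∀ γ, ‖g γ‖ ≤ D)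
    (h : ∀ n, Tendsto (fun γ => f γ - g γ) (R.F n) (𝓝 0)) (φ : XL μ (L2 G)) : B.Ph f φ = B.Ph g φ := by
  rw [Ph_apply, Mf_congr hC hD h, Ph_apply]

theorem Ph_adj {f : G → ℂ} {C : ℝ} (hC : ∀ γ, ‖f γ‖ ≤ C) (φ ψ : XL μ (L2 G)) :
    inner ℂ (B.Ph f φ) ψ = inner ℂ φ (B.Ph (fun γ => (starRingEnd ℂ) (f γ)) ψ) := by
  rw [Ph_apply, Ph_apply, inner_smul_left, inner_smul_right, ContinuousLinearMap.adjoint_inner_left,
    ContinuousLinearMap.adjoint_inner_right, Mf_adj hC, map_inv₀, Complex.conj_ofReal]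

/-- The norm of `Φ(f)` is bounded by the supremum of `f` at infinity. -/
theorem norm_Ph_le {f : G → ℂ} {C : ℝ} (hC : ∀ γ, ‖f γ‖ ≤ C) {ε : ℝ} (hε : 0 ≤ ε)
    (h : ∀ n, ∀ᶠ γ in R.F n, ‖f γ‖ ≤ ε) (φ : XL μ (L2 G)) : ‖B.Ph f φ‖ ≤ ε * ‖φ‖ := by
  have hT : ∀ ψ : XL μ (L2 G), ‖Tb μ a E R b ψ‖ ^ 2 = B.p * ‖ψ‖ ^ 2 := fun ψ => by
    have h1 := B.inner_T ψ ψ
    rw [inner_self_eq_norm_sq_to_K, inner_self_eq_norm_sq_to_K] at h1
    apply Complex.ofReal_injective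
    rw [Complex.ofReal_mul, Complex.ofReal_pow, Complex.ofReal_pow]
    exact h1
  have h1 : ‖(inner ℂ (B.Ph f φ) (B.Ph f φ) : ℂ)‖ ≤ ε * ‖φ‖ * ‖B.Ph f φ‖ := by
    rw [B.inner_Ph, norm_mul, norm_inv, Complex.norm_real, Real.norm_eq_abs, abs_of_pos B.pos]
    have h2 : ‖(inner ℂ (Tb μ a E R b (B.Ph f φ)) (Mf μ R f (Tb μ a E R b φ)) : ℂ)‖ ≤
        ‖Tb μ a E R b (B.Ph f φ)‖ * (ε * ‖Tb μ a E R b φ‖) :=
      (norm_inner_le_norm _ _).trans (mul_le_mul_of_nonneg_left (Mf_small hC hε h _) (norm_nonneg _))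
    have h3 : ‖Tb μ a E R b (B.Ph f φ)‖ * ‖Tb μ a E R b φ‖ = B.p * (‖φ‖ * ‖B.Ph f φ‖) := by
      have e1 := hT (B.Ph f φ)
      have e2 := hT φ
      refine (sq_eq_sq₀ (by positivity) (mul_nonneg B.pos.le (by positivity))).1 ?_
      rw [mul_pow, e1, e2]
      ring
    calc B.p⁻¹ * ‖(inner ℂ (Tb μ a E R b (B.Ph f φ)) (Mf μ R f (Tb μ a E R b φ)) : ℂ)‖
        ≤ B.p⁻¹ * (ε * (‖Tb μ a E R b (B.Ph f φ)‖ * ‖Tb μ a E R b φ‖)) := by
          refine mul_le_mul_of_nonneg_left (h2.trans (le_of_eq (by ring))) (inv_nonneg.2 B.pos.le)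
      _ = ε * ‖φ‖ * ‖B.Ph f φ‖ := by
          rw [h3]
          field_simp [B.pos.ne']
  rw [inner_self_eq_norm_sq_to_K] at h1
  have h4 : ‖B.Ph f φ‖ ^ 2 ≤ ε * ‖φ‖ * ‖B.Ph f φ‖ := by
    refine le_trans (le_of_eq ?_) h1
    rw [norm_pow]
    simp
  by_cases h0 : ‖B.Ph f φ‖ = 0
  · rw [h0]
    positivity
  · have h5 : 0 < ‖B.Ph f φ‖ := lt_of_le_of_ne (norm_nonneg _) (Ne.symm h0)
    nlinarith

theorem Ph_W {f : G → ℂ} {C : ℝ} (hC : ∀ γ, ‖f γ‖ ≤ C) (k : G) (φ : XL μ (L2 G)) :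
    B.Ph (fun γ => f (γ * k)) (Wk μ k φ) = Wk μ k (B.Ph f φ) := by
  rw [Ph_apply, adj_W f hC, Ph_apply, map_smul]

theorem Ph_xE (f : G → ℂ) {D : Set X} (hD : MeasurableSet D) (φ : XL μ (L2 G)) :
    B.Ph f (xE μ (L2 G) D φ) = xE μ (L2 G) D (B.Ph f φ) := by
  rw [Ph_apply, adj_xE f hD, Ph_apply, map_smul]

/-- Contracted elements: for every bounded `f`. -/
theorem Ph_contr (h3 : Tendsto (fun g : G1 => μ {x | a.a g x ≠ 1}) (𝓝 1) (𝓝 0)) (f : G → ℂ) {q : G1}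
    (hq : q ∈ Ctr b) (φ : XL μ (L2 G)) : B.Ph f (Vq μ a E q φ) = Vq μ a E q (B.Ph f φ) := by
  rw [Ph_apply, adj_contr h3 f hq, Ph_apply, map_smul]

/-- Elements of the centraliser: for `f` uniformly continuous at infinity. -/
theorem Ph_cen (hP : PLf R pd) {f : G → ℂ} (hf : AV R pd f) (q : cen b) (φ : XL μ (L2 G)) :
    B.Ph f (Vq μ a E (q : G1) φ) = Vq μ a E (q : G1) (B.Ph f φ) := by
  refine B.T_inj ?_
  rw [B.T_Ph hf, Tb_cen, Tb_cen, B.T_Ph hf, oL_Mf hP hf]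

/-- The operators `T Z T*`, `Z` commuting with the boundary map, are local. -/
theorem loc_of_com {Z : XL μ (L2 G) →L[ℂ] XL μ (L2 G)}
    (hZ : ∀ f, UC pd f → (∃ C : ℝ, ∀ γ, ‖f γ‖ ≤ C) → ∀ φ, Z (B.Ph f φ) = B.Ph f (Z φ)) :
    LocX R pd ((Tb μ a E R b).comp (Z.comp (ContinuousLinearMap.adjoint (Tb μ a E R b)))) := by
  refine loc_of_Mf fun f hf hfb x => ?_
  obtain ⟨C, hC⟩ := hfb
  have hav : AV R pd f := AV.of_uc hf hC
  change Tb μ a E R b (Z (ContinuousLinearMap.adjoint (Tb μ a E R b) (Mf μ R f x))) =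
    Mf μ R f (Tb μ a E R b (Z (ContinuousLinearMap.adjoint (Tb μ a E R b) x)))
  have h1 : ContinuousLinearMap.adjoint (Tb μ a E R b) (Mf μ R f x) =
      B.Ph f (ContinuousLinearMap.adjoint (Tb μ a E R b) x) := by
    refine B.T_inj ?_
    rw [B.T_Ph hav]
    exact loc_Mf B.loc hav x
  rw [h1, hZ f hf ⟨C, hC⟩, B.T_Ph hav]

end BMap

end Pool.Agent.Helper78.BM
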