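import Pool.Agent.Helper78.BM.AV
import Pool.Agent.Helper9.S3.P0
import Pool.Agent.Helper9.S3.P2

/-!
# Project FP (MP_0f6f3f_an), boundary map: the positions of a stratum

Right translations are uniformly continuous at infinity on the positions (`psh_pos`), left translations do not move them at infinity (`plf_pos`).
-/

set_option autoImplicit false
set_option linter.unusedSectionVars false

open Filter Topology Matrix

namespace Pool.Agent.Helper78.BM

open Pool.Agent.Helper84 Pool.Agent.Helper84.GN Pool.Agent.Helper84.GN.S3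
open Pool.Agent.Helper84.NI Pool.Agent.Helper84.GVN Pool.Agent.Helper90.RK Pool.Agent.Helper96.RK

variable {G : Type} [Group G] {N : ℕ} {P : PH G N} {S : Sv P}

private theorem ns_add_le78 (A B : MN N) : ns (A + B) ≤ 2 * (ns A + ns B) := by
  unfold ns
  simp only [Matrix.add_apply]
  rw [← Finset.sum_add_distrib, Finset.mul_sum]
  refine Finset.sum_le_sum fun i _ => ?_
  rw [← Finset.sum_add_distrib, Finset.mul_sum]
  refine Finset.sum_le_sum fun j _ => ?_
  have h := norm_add_le (A i j) (B i j)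
  nlinarith [norm_nonneg (A i j + B i j), sq_nonneg (‖A i j‖ - ‖B i j‖), norm_nonneg (A i j), norm_nonneg (B i j)]

private theorem ns_conj78 (A : MN N) : ns Aᴴ = ns A := by
  unfold ns
  rw [Finset.sum_comm]
  refine Finset.sum_congr rfl fun i _ => Finset.sum_congr rfl fun j _ => ?_
  rw [Matrix.conjTranspose_apply, norm_star]

/-- the coordinate projection on a block -/
private def Pj78 (b : Fin N → ℕ) (j : Fin N) : MN N := diagonal (fun i => if b i = b j then (1 : ℂ) else 0)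

private theorem ns_mul_P78 (b : Fin N → ℕ) (j : Fin N) (A : MN N) : ns (A * Pj78 b j) ≤ ns A := by
  unfold ns Pj78
  refine Finset.sum_le_sum fun i _ => Finset.sum_le_sum fun l _ => ?_
  rw [Matrix.mul_diagonal]
  split_ifs
  · rw [mul_one]
  · rw [mul_zero, norm_zero]
    have h := sq_nonneg ‖A i l‖
    nlinarith [h]

private theorem P_conj78 (b : Fin N → ℕ) (j : Fin N) : (Pj78 b j)ᴴ = Pj78 b j := by
  unfold Pj78
  rw [Matrix.diagonal_conjTranspose]
  congr 1
  funext i
  rw [Pi.star_apply]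
  split_ifs <;> simp

private theorem comm_P78 {b : Fin N → ℕ} {v : MN N} (hv : D b v = v) (j : Fin N) : v * Pj78 b j = Pj78 b j * v := by
  unfold Pj78
  ext i l
  rw [Matrix.mul_diagonal, Matrix.diagonal_mul]
  by_cases h : b i = b l
  · rw [h, mul_comm]
  · have h0 : v i l = 0 := by
      rw [← hv, D_apply, if_neg h]
    rw [h0, zero_mul, mul_zero]

/-- Close frames have close positions. -/
private theorem pos_near78 {b : Fin N → ℕ} {k k' v : MN N} (hk : IsU k) (hk' : IsU k') (hv : IsU v) (hD : D b v = v)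
    {ε : ℝ} (h : ns (k * v - k') ≤ ε) (j : Fin N) :
    ns (k * diagonal (fun i => if b i = b j then (1 : ℂ) else 0) * kᴴ -
      k' * diagonal (fun i => if b i = b j then (1 : ℂ) else 0) * k'ᴴ) ≤ 4 * ε := by
  have e1 : k * Pj78 b j * kᴴ = (k * v) * Pj78 b j * (k * v)ᴴ := by
    rw [Matrix.conjTranspose_mul]
    calc k * Pj78 b j * kᴴ = k * Pj78 b j * (v * vᴴ) * kᴴ := by rw [hv.mul_star, Matrix.mul_one]
      _ = k * (Pj78 b j * v) * vᴴ * kᴴ := by simp only [Matrix.mul_assoc]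
      _ = k * (v * Pj78 b j) * vᴴ * kᴴ := by rw [comm_P78 hD]
      _ = k * v * Pj78 b j * (vᴴ * kᴴ) := by simp only [Matrix.mul_assoc]
  have hkv : IsU (k * v) := hk.mul hv
  change ns (k * Pj78 b j * kᴴ - k' * Pj78 b j * k'ᴴ) ≤ 4 * ε
  rw [e1]
  have e2 : (k * v) * Pj78 b j * (k * v)ᴴ - k' * Pj78 b j * k'ᴴ =
      (k * v - k') * Pj78 b j * (k * v)ᴴ + k' * (Pj78 b j * (k * v - k')ᴴ) := by
    rw [Matrix.conjTranspose_sub]
    simp only [Matrix.sub_mul, Matrix.mul_sub, Matrix.mul_assoc]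
    abel
  rw [e2]
  refine (ns_add_le78 _ _).trans ?_
  have h1 : ns ((k * v - k') * Pj78 b j * (k * v)ᴴ) ≤ ε := by
    rw [ns_mul_unitary hkv.star]
    exact (ns_mul_P78 b j _).trans h
  have h2 : ns (k' * (Pj78 b j * (k * v - k')ᴴ)) ≤ ε := by
    rw [ns_unitary_mul hk', ← ns_conj78, Matrix.conjTranspose_mul, Matrix.conjTranspose_conjTranspose, P_conj78]
    exact (ns_mul_P78 b j _).trans h
  linarith

private theorem pdist_near78 {b : Fin N → ℕ} {γ γ' : G} {v : MN N} (hv : IsU v) (hD : D b v = v)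
    {ε : ℝ} (h : ns (S.kR γ * v - S.kR γ') ≤ ε) : pdist S b γ γ' ≤ N * (2 * Real.sqrt ε) := by
  unfold pdist
  have h1 : ∀ j ∈ (Finset.univ : Finset (Fin N)), Real.sqrt (ns (pos S b γ j - pos S b γ' j)) ≤ 2 * Real.sqrt ε := by
    intro j _
    have h2 : ns (pos S b γ j - pos S b γ' j) ≤ 4 * ε := pos_near78 (S.uR γ) (S.uR γ') hv hD h j
    refine (Real.sqrt_le_sqrt h2).trans ?_
    rw [Real.sqrt_mul (by norm_num : (0 : ℝ) ≤ 4)]
    have h4 : Real.sqrt 4 = 2 := by
      rw [show (4 : ℝ) = 2 ^ 2 by norm_num]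
      exact Real.sqrt_sq (by norm_num)
    rw [h4]
  refine (Finset.sum_le_card_nsmul _ _ _ h1).trans ?_
  rw [nsmul_eq_mul, Finset.card_univ, Fintype.card_fin]

private theorem exists_small78 {ε : ℝ} (hε : 0 < ε) : ∃ ε' : ℝ, 0 < ε' ∧ (N : ℝ) * (2 * Real.sqrt ε') < ε := by
  refine ⟨(ε / (4 * (N + 1))) ^ 2, by positivity, ?_⟩
  rw [Real.sqrt_sq (by positivity)]
  have h : (N : ℝ) * (2 * (ε / (4 * (N + 1)))) = (N / (N + 1)) * (ε / 2) := by
    field_simp
    ring
  rw [h]
  have h2 : (N : ℝ) / (N + 1) ≤ 1 := by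
    rw [div_le_one (by positivity)]
    linarith
  nlinarith

theorem psh_pos (T : Str S) : PSh (Pool.Agent.Helper84.GN.toReg T) (posPD S T.b) := by
  intro h ε hε
  obtain ⟨ε', hε', h1⟩ := exists_small78 (N := N) hε
  obtain ⟨δ, hδ, h2⟩ := pos_right T h hε'
  refine ⟨δ, hδ, fun n => ?_⟩
  obtain ⟨s, hs, h3⟩ := h2 n
  refine ⟨s, hs, fun γ hγ γ' hγ' hd => ?_⟩
  obtain ⟨u, v, -, hv, -, hDv, -, h4, -⟩ := h3 γ hγ γ' hγ' hd
  have h5 := pdist_near78 hv hDv h4
  have e : ∀ γ : G, 1⁻¹ * γ * h = γ * h := fun γ => by group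
  rw [e, e] at h5
  exact lt_of_le_of_lt h5 h1

theorem plf_pos (T : Str S) : PLf (Pool.Agent.Helper84.GN.toReg T) (posPD S T.b) := by
  intro g n
  rw [Metric.tendsto_nhds]
  intro ε hε
  obtain ⟨ε', hε', h1⟩ := exists_small78 (N := N) hε
  obtain ⟨δ, hδ, htri⟩ := tri_close T.mono (max (ns (P.ι 1)) (ns (1 : MN N))) hε'
  filter_upwards [(tendsto_upper T g 1 n).eventually (gt_mem_nhds hδ)] with γ hγ
  have hup : ∀ i j, T.b i < T.b j → ‖S.m g 1 γ i j‖ ≤ δ := by
    intro i j hij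
    refine le_trans ?_ hγ.le
    have h0 : ∀ k l, 0 ≤ (if T.b k < T.b l then ‖S.m g 1 γ k l‖ else 0) := fun k l => by
      split_ifs
      · exact norm_nonneg _
      · exact le_refl _
    calc ‖S.m g 1 γ i j‖ = (if T.b i < T.b j then ‖S.m g 1 γ i j‖ else 0) := by rw [if_pos hij]
      _ ≤ ∑ l, (if T.b i < T.b l then ‖S.m g 1 γ i l‖ else 0) :=
          Finset.single_le_sum (f := fun l => if T.b i < T.b l then ‖S.m g 1 γ i l‖ else 0)
            (fun l _ => h0 i l) (Finset.mem_univ j)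
      _ ≤ _ := Finset.single_le_sum
            (f := fun k => ∑ l, if T.b k < T.b l then ‖S.m g 1 γ k l‖ else 0)
            (fun k _ => Finset.sum_nonneg fun l _ => h0 k l) (Finset.mem_univ i)
  have hM := S.m_unitary g γ
  have hone : IsU (1 : MN N) := by
    have h := hM.mul hM.star
    rwa [hM.mul_star] at h
  obtain ⟨u, v, -, hv, -, hDv, -, h2, -⟩ := htri (S.m g 1 γ) 1 1 (S.m g 1 γ)ᴴ hone hM.star
    ((S.ns_m g 1 γ).le.trans (le_max_left _ _)) (le_max_right _ _) (S.norm_det_m g 1 γ) (by simp) hup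
    (fun i j hij => by
      have : i ≠ j := fun h => absurd (congrArg T.b h) (ne_of_lt hij)
      rw [Matrix.one_apply_ne this, norm_zero]
      exact hδ.le)
    (fun i j hij => by
      have : i ≠ j := fun h => absurd (congrArg T.b h) hij
      rw [Matrix.one_apply_ne this, norm_zero]
      exact hδ.le)
    (by rw [hM.mul_star, one_mul])
  obtain ⟨c, hc, hc2⟩ := iota_one P
  have e0 : g⁻¹ * γ * 1 = g⁻¹ * γ := mul_one _
  -- `M = c k^* k'`
  have e1 : (S.m g 1 γ)ᴴ = (starRingEnd ℂ c) • ((S.kR (g⁻¹ * γ))ᴴ * S.kR γ) := by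
    unfold Sv.m
    rw [hc2, e0, Matrix.mul_smul, Matrix.mul_one, Matrix.smul_mul, Matrix.conjTranspose_smul,
      Matrix.conjTranspose_mul, Matrix.conjTranspose_conjTranspose]
    rfl
  have hcc : c * (starRingEnd ℂ) c = 1 := by
    rw [Complex.mul_conj, Complex.normSq_eq_norm_sq, hc]
    simp
  have e2 : S.kR (g⁻¹ * γ) * (c • v) - S.kR γ = (-c) • (S.kR (g⁻¹ * γ) * ((S.m g 1 γ)ᴴ - v)) := by
    rw [e1, Matrix.mul_sub, Matrix.mul_smul, Matrix.mul_smul, ← Matrix.mul_assoc, (S.uR (g⁻¹ * γ)).mul_star,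
      Matrix.one_mul, smul_sub, smul_smul, neg_mul, hcc, neg_smul, neg_smul, one_smul]
    abel
  have hcv : IsU (c • v) := by
    have h3 : (c • v)ᴴ * (c • v) = 1 := by
      rw [Matrix.conjTranspose_smul, Matrix.smul_mul, Matrix.mul_smul, smul_smul]
      have h4 : vᴴ * v = 1 := hv
      rw [h4]
      have h5 : star c * c = 1 := by
        rw [mul_comm]
        exact hcc
      rw [h5, one_smul]
    exact h3
  have hDc : D T.b (c • v) = c • v := by
    ext i j
    rw [D_apply, Matrix.smul_apply]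
    split_ifs with h
    · rfl
    · have h0 : v i j = 0 := by
        rw [← hDv, D_apply, if_neg h]
      rw [h0, smul_zero]
  have h6 : ns (S.kR (g⁻¹ * γ) * (c • v) - S.kR γ) ≤ ε' := by
    rw [e2, ns_smul, norm_neg, hc, one_pow, one_mul, ns_unitary_mul (S.uR _)]
    exact h2
  have h7 := pdist_near78 hcv hDc h6
  rw [dist_zero_right, Real.norm_eq_abs, abs_of_nonneg (d_nonneg _ _ _)]
  rw [(posPD S T.b).symm]
  exact lt_of_le_of_lt h7 h1

end Pool.Agent.Helper78.BM
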