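import Pool.Agent.Helper9.S3X.A7c

/-!
# Project FP (MP_0f6f3f_an), boundary map: fields which are uniformly continuous at infinity

`SF pd L`: finite sums `∑ f_i(γ) w_i`, `f_i` bounded and uniformly continuous for `pd`. `AV R pd F`: the bounded field of vectors `F : G → L` is a limit, at infinity in the regions
of `R`, of elements of `SF`. `AO R pd O`: the same for fields of operators, for every fixed vector. `PSh`: right translations are uniformly continuous at infinity. `PLf`: left translations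
do not move the position at infinity.
-/

set_option autoImplicit false
set_option linter.unusedSectionVars false

open Filter Topology

namespace Pool.Agent.Helper78.BM

open Pool.Agent.Helper84 Pool.Agent.Helper84.GN Pool.Agent.Helper84.GN.S3 Pool.Agent.Helper84.GN.S3.X

variable {G : Type} [Group G] {L L' L'' : Type} [NormedAddCommGroup L] [InnerProductSpace ℂ L]
  [NormedAddCommGroup L'] [InnerProductSpace ℂ L'] [NormedAddCommGroup L''] [InnerProductSpace ℂ L'']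

/-- Finite sums of uniformly continuous functions times vectors. -/
def SF (pd : PD G) (L : Type) [NormedAddCommGroup L] [InnerProductSpace ℂ L] : Submodule ℂ (G → L) :=
  Submodule.span ℂ {F | ∃ (f : G → ℂ) (w : L), UC pd f ∧ (∃ C : ℝ, ∀ γ, ‖f γ‖ ≤ C) ∧ F = fun γ => f γ • w}

/-- Bounded fields of vectors which are uniformly continuous at infinity. -/
structure AV (R : Reg G) (pd : PD G) (F : G → L) : Prop where
  bdd : ∃ C : ℝ, ∀ γ, ‖F γ‖ ≤ C
  apx : ∀ ε : ℝ, 0 < ε → ∃ E ∈ SF pd L, ∀ n, ∀ᶠ γ in R.F n, ‖F γ - E γ‖ ≤ ε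

/-- Bounded fields of operators which are uniformly continuous at infinity. -/
structure AO (R : Reg G) (pd : PD G) (O : G → (L →L[ℂ] L')) : Prop where
  bdd : ∃ C : ℝ, ∀ γ x, ‖O γ x‖ ≤ C * ‖x‖
  av : ∀ w, AV R pd fun γ => O γ w

/-- Right translations are uniformly continuous at infinity. -/
def PSh (R : Reg G) (pd : PD G) : Prop :=
  ∀ (h : G) (ε : ℝ), 0 < ε → ∃ δ : ℝ, 0 < δ ∧ ∀ n : ℕ, ∃ s ∈ R.F n, ∀ γ ∈ s, ∀ γ' ∈ s,
    pd.d γ γ' < δ → pd.d (γ * h) (γ' * h) < ε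

/-- Left translations do not move the positions at infinity. -/
def PLf (R : Reg G) (pd : PD G) : Prop :=
  ∀ (g : G) (n : ℕ), Tendsto (fun γ => pd.d γ (g⁻¹ * γ)) (R.F n) (𝓝 0)

section UC

variable {pd : PD G}

theorem d_nonneg (pd : PD G) (γ γ' : G) : 0 ≤ pd.d γ γ' := by
  have h1 := pd.tri γ γ' γ
  rw [pd.self, pd.symm γ' γ] at h1
  linarith

theorem UC.const (c : ℂ) : UC pd fun _ : G => c := fun ε hε => ⟨1, one_pos, fun γ γ' _ => by
  rw [sub_self, norm_zero]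
  exact hε.le⟩

theorem UC.add {f g : G → ℂ} (hf : UC pd f) (hg : UC pd g) : UC pd fun γ => f γ + g γ := by
  intro ε hε
  obtain ⟨δ, hδ, h1⟩ := hf (ε / 2) (half_pos hε)
  obtain ⟨δ', hδ', h2⟩ := hg (ε / 2) (half_pos hε)
  refine ⟨min δ δ', lt_min hδ hδ', fun γ γ' h => ?_⟩
  have h3 := h1 γ γ' (h.trans_le (min_le_left _ _))
  have h4 := h2 γ γ' (h.trans_le (min_le_right _ _))
  calc ‖f γ + g γ - (f γ' + g γ')‖ = ‖(f γ - f γ') + (g γ - g γ')‖ := by ring_nf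
    _ ≤ ‖f γ - f γ'‖ + ‖g γ - g γ'‖ := norm_add_le _ _
    _ ≤ ε := by linarith

theorem UC.mul {f g : G → ℂ} (hf : UC pd f) (hg : UC pd g) {C D : ℝ} (hC : ∀ γ, ‖f γ‖ ≤ C)
    (hD : ∀ γ, ‖g γ‖ ≤ D) : UC pd fun γ => f γ * g γ := by
  intro ε hε
  have hC0 : 0 ≤ C := (norm_nonneg _).trans (hC 1)
  have hD0 : 0 ≤ D := (norm_nonneg _).trans (hD 1)
  obtain ⟨δ, hδ, h1⟩ := hf (ε / (2 * (D + 1))) (by positivity)
  obtain ⟨δ', hδ', h2⟩ := hg (ε / (2 * (C + 1))) (by positivity)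
  refine ⟨min δ δ', lt_min hδ hδ', fun γ γ' h => ?_⟩
  have h3 := h1 γ γ' (h.trans_le (min_le_left _ _))
  have h4 := h2 γ γ' (h.trans_le (min_le_right _ _))
  have e1 : f γ * g γ - f γ' * g γ' = (f γ - f γ') * g γ + f γ' * (g γ - g γ') := by ring
  rw [e1]
  refine (norm_add_le _ _).trans ?_
  rw [norm_mul, norm_mul]
  have h5 : ‖f γ - f γ'‖ * ‖g γ‖ ≤ ε / (2 * (D + 1)) * D :=
    mul_le_mul h3 (hD γ) (norm_nonneg _) (by positivity)
  have h6 : ‖f γ'‖ * ‖g γ - g γ'‖ ≤ C * (ε / (2 * (C + 1))) :=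
    mul_le_mul (hC γ') h4 (norm_nonneg _) hC0
  have h7 : ε / (2 * (D + 1)) * D ≤ ε / 2 := by
    rw [div_mul_eq_mul_div, div_le_div_iff₀ (by positivity) (by positivity)]
    nlinarith
  have h8 : C * (ε / (2 * (C + 1))) ≤ ε / 2 := by
    rw [mul_div_assoc', div_le_div_iff₀ (by positivity) (by positivity)]
    nlinarith
  linarith

theorem UC.conj {f : G → ℂ} (hf : UC pd f) : UC pd fun γ => (starRingEnd ℂ) (f γ) := by
  intro ε hε
  obtain ⟨δ, hδ, h1⟩ := hf ε hε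
  refine ⟨δ, hδ, fun γ γ' h => ?_⟩
  rw [← map_sub, RCLike.norm_conj]
  exact h1 γ γ' h

end UC

section SF

variable {pd : PD G}

theorem SF.one {f : G → ℂ} (hf : UC pd f) {C : ℝ} (hC : ∀ γ, ‖f γ‖ ≤ C) (w : L) :
    (fun γ => f γ • w) ∈ SF pd L := Submodule.subset_span ⟨f, w, hf, ⟨C, hC⟩, rfl⟩

theorem SF.const (w : L) : (fun _ => w) ∈ SF pd L := by
  have h := SF.one (pd := pd) (UC.const (1 : ℂ)) (C := 1) (fun _ => by simp) w
  simpa using h

theorem SF.bdd {E : G → L} (hE : E ∈ SF pd L) : ∃ C : ℝ, ∀ γ, ‖E γ‖ ≤ C := by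
  induction hE using Submodule.span_induction with
  | mem x hx =>
    obtain ⟨f, w, -, ⟨C, hC⟩, rfl⟩ := hx
    refine ⟨C * ‖w‖, fun γ => ?_⟩
    rw [norm_smul]
    exact mul_le_mul_of_nonneg_right (hC γ) (norm_nonneg _)
  | zero => exact ⟨0, fun γ => by rw [Pi.zero_apply, norm_zero]⟩
  | add x y _ _ hx hy =>
    obtain ⟨C, hC⟩ := hx
    obtain ⟨D, hD⟩ := hy
    exact ⟨C + D, fun γ => (norm_add_le _ _).trans (add_le_add (hC γ) (hD γ))⟩
  | smul c x _ hx =>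
    obtain ⟨C, hC⟩ := hx
    refine ⟨‖c‖ * C, fun γ => ?_⟩
    rw [Pi.smul_apply, norm_smul]
    exact mul_le_mul_of_nonneg_left (hC γ) (norm_nonneg _)

theorem SF.smul {f : G → ℂ} (hf : UC pd f) {C : ℝ} (hC : ∀ γ, ‖f γ‖ ≤ C) {E : G → L} (hE : E ∈ SF pd L) :
    (fun γ => f γ • E γ) ∈ SF pd L := by
  induction hE using Submodule.span_induction with
  | mem x hx =>
    obtain ⟨g, w, hg, ⟨D, hD⟩, rfl⟩ := hx
    have e : (fun γ => f γ • g γ • w) = fun γ => (f γ * g γ) • w := by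
      funext γ
      rw [smul_smul]
    rw [e]
    exact SF.one (UC.mul hf hg hC hD) (C := C * D) (fun γ => by
      rw [norm_mul]
      exact mul_le_mul (hC γ) (hD γ) (norm_nonneg _) ((norm_nonneg _).trans (hC γ))) w
  | zero =>
    have e : (fun γ => f γ • (0 : G → L) γ) = 0 := by
      funext γ
      simp
    rw [e]
    exact Submodule.zero_mem _
  | add x y _ _ hx hy =>
    have e : (fun γ => f γ • (x + y) γ) = (fun γ => f γ • x γ) + fun γ => f γ • y γ := by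
      funext γ
      simp
    rw [e]
    exact Submodule.add_mem _ hx hy
  | smul c x _ hx =>
    have e : (fun γ => f γ • (c • x) γ) = c • fun γ => f γ • x γ := by
      funext γ
      simp only [Pi.smul_apply]
      rw [smul_comm]
    rw [e]
    exact Submodule.smul_mem _ _ hx

theorem SF.map (A : L →L[ℂ] L') {E : G → L} (hE : E ∈ SF pd L) : (fun γ => A (E γ)) ∈ SF pd L' := by
  induction hE using Submodule.span_induction with
  | mem x hx =>
    obtain ⟨g, w, hg, ⟨D, hD⟩, rfl⟩ := hx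
    have e : (fun γ => A (g γ • w)) = fun γ => g γ • A w := by
      funext γ
      rw [map_smul]
    rw [e]
    exact SF.one hg hD _
  | zero =>
    have e : (fun γ => A ((0 : G → L) γ)) = 0 := by
      funext γ
      simp
    rw [e]
    exact Submodule.zero_mem _
  | add x y _ _ hx hy =>
    have e : (fun γ => A ((x + y) γ)) = (fun γ => A (x γ)) + fun γ => A (y γ) := by
      funext γ
      simp
    rw [e]
    exact Submodule.add_mem _ hx hy
  | smul c x _ hx =>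
    have e : (fun γ => A ((c • x) γ)) = c • fun γ => A (x γ) := by
      funext γ
      simp
    rw [e]
    exact Submodule.smul_mem _ _ hx

/-- The elements of `SF` are uniformly continuous. -/
theorem SF.uc {E : G → L} (hE : E ∈ SF pd L) {ε : ℝ} (hε : 0 < ε) :
    ∃ δ : ℝ, 0 < δ ∧ ∀ γ γ', pd.d γ γ' < δ → ‖E γ - E γ'‖ ≤ ε := by
  induction hE using Submodule.span_induction generalizing ε with
  | mem x hx =>
    obtain ⟨g, w, hg, ⟨D, hD⟩, rfl⟩ := hx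
    obtain ⟨δ, hδ, h1⟩ := hg (ε / (‖w‖ + 1)) (by positivity)
    refine ⟨δ, hδ, fun γ γ' h => ?_⟩
    change ‖g γ • w - g γ' • w‖ ≤ ε
    rw [← sub_smul, norm_smul]
    have h2 : ‖g γ - g γ'‖ * ‖w‖ ≤ ε / (‖w‖ + 1) * ‖w‖ := mul_le_mul_of_nonneg_right (h1 γ γ' h) (norm_nonneg _)
    refine h2.trans ?_
    rw [div_mul_eq_mul_div, div_le_iff₀ (by positivity)]
    nlinarith [norm_nonneg w]
  | zero => exact ⟨1, one_pos, fun γ γ' _ => by simp [hε.le]⟩
  | add x y _ _ hx hy =>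
    obtain ⟨δ, hδ, h1⟩ := hx (half_pos hε)
    obtain ⟨δ', hδ', h2⟩ := hy (half_pos hε)
    refine ⟨min δ δ', lt_min hδ hδ', fun γ γ' h => ?_⟩
    have h3 := h1 γ γ' (h.trans_le (min_le_left _ _))
    have h4 := h2 γ γ' (h.trans_le (min_le_right _ _))
    have e : (x + y) γ - (x + y) γ' = (x γ - x γ') + (y γ - y γ') := by
      rw [Pi.add_apply, Pi.add_apply]
      abel
    rw [e]
    exact (norm_add_le _ _).trans (by linarith)
  | smul c x _ hx =>
    obtain ⟨δ, hδ, h1⟩ := hx (ε := ε / (‖c‖ + 1)) (by positivity)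
    refine ⟨δ, hδ, fun γ γ' h => ?_⟩
    rw [Pi.smul_apply, Pi.smul_apply, ← smul_sub, norm_smul]
    refine (mul_le_mul_of_nonneg_left (h1 γ γ' h) (norm_nonneg _)).trans ?_
    rw [mul_div_assoc', div_le_iff₀ (by positivity)]
    nlinarith [norm_nonneg c]

end SF

section AV

variable {R : Reg G} {pd : PD G}

theorem AV.of_sf {F : G → L} (h : F ∈ SF pd L) : AV R pd F :=
  ⟨SF.bdd h, fun ε hε => ⟨F, h, fun n => Eventually.of_forall fun γ => by
    rw [sub_self, norm_zero]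
    exact hε.le⟩⟩

theorem AV.const (w : L) : AV R pd fun _ => w := AV.of_sf (SF.const w)

theorem AV.of_uc {f : G → ℂ} (hf : UC pd f) {C : ℝ} (hC : ∀ γ, ‖f γ‖ ≤ C) : AV R pd f := by
  have h := SF.one (pd := pd) hf hC (1 : ℂ)
  simp only [smul_eq_mul, mul_one] at h
  exact AV.of_sf h

theorem AV.add {F F' : G → L} (h : AV R pd F) (h' : AV R pd F') : AV R pd fun γ => F γ + F' γ := by
  obtain ⟨C, hC⟩ := h.bdd
  obtain ⟨D, hD⟩ := h'.bdd
  refine ⟨⟨C + D, fun γ => (norm_add_le _ _).trans (add_le_add (hC γ) (hD γ))⟩, fun ε hε => ?_⟩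
  obtain ⟨E, hE, h1⟩ := h.apx (ε / 2) (half_pos hε)
  obtain ⟨E', hE', h2⟩ := h'.apx (ε / 2) (half_pos hε)
  refine ⟨E + E', Submodule.add_mem _ hE hE', fun n => ?_⟩
  filter_upwards [h1 n, h2 n] with γ h3 h4
  have e : F γ + F' γ - (E + E') γ = (F γ - E γ) + (F' γ - E' γ) := by
    rw [Pi.add_apply]
    abel
  rw [e]
  exact (norm_add_le _ _).trans (by linarith)

theorem AV.map (A : L →L[ℂ] L') {F : G → L} (h : AV R pd F) : AV R pd fun γ => A (F γ) := by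
  obtain ⟨C, hC⟩ := h.bdd
  refine ⟨⟨‖A‖ * C, fun γ => (A.le_opNorm _).trans (mul_le_mul_of_nonneg_left (hC γ) (norm_nonneg _))⟩,
    fun ε hε => ?_⟩
  obtain ⟨E, hE, h1⟩ := h.apx (ε / (‖A‖ + 1)) (by positivity)
  refine ⟨fun γ => A (E γ), SF.map A hE, fun n => ?_⟩
  filter_upwards [h1 n] with γ h2
  rw [← map_sub]
  refine (A.le_opNorm _).trans ((mul_le_mul_of_nonneg_left h2 (norm_nonneg _)).trans ?_)
  rw [mul_div_assoc', div_le_iff₀ (by positivity)]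
  nlinarith [norm_nonneg A]

theorem AV.csmul (c : ℂ) {F : G → L} (h : AV R pd F) : AV R pd fun γ => c • F γ :=
  h.map (c • ContinuousLinearMap.id ℂ L)

theorem AV.sub {F F' : G → L} (h : AV R pd F) (h' : AV R pd F') : AV R pd fun γ => F γ - F' γ := by
  have h1 := h.add (h'.csmul (-1))
  have e : (fun γ => F γ + (-1 : ℂ) • F' γ) = fun γ => F γ - F' γ := by
    funext γ
    rw [neg_smul, one_smul, sub_eq_add_neg]
  rwa [e] at h1

/-- Uniform limits at infinity. -/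
theorem AV.lim {F : G → L} {C : ℝ} (hC : ∀ γ, ‖F γ‖ ≤ C)
    (h : ∀ ε : ℝ, 0 < ε → ∃ F' : G → L, AV R pd F' ∧ ∀ n, ∀ᶠ γ in R.F n, ‖F γ - F' γ‖ ≤ ε) : AV R pd F := by
  refine ⟨⟨C, hC⟩, fun ε hε => ?_⟩
  obtain ⟨F', hF', h1⟩ := h (ε / 2) (half_pos hε)
  obtain ⟨E, hE, h2⟩ := hF'.apx (ε / 2) (half_pos hε)
  refine ⟨E, hE, fun n => ?_⟩
  filter_upwards [h1 n, h2 n] with γ h3 h4
  have e : F γ - E γ = (F γ - F' γ) + (F' γ - E γ) := by abel
  rw [e]
  exact (norm_add_le _ _).trans (by linarith)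

theorem AV.congr {F F' : G → L} (h : AV R pd F) {C : ℝ} (hC : ∀ γ, ‖F' γ‖ ≤ C)
    (h' : ∀ n, Tendsto (fun γ => F' γ - F γ) (R.F n) (𝓝 0)) : AV R pd F' := by
  refine AV.lim hC fun ε hε => ⟨F, h, fun n => ?_⟩
  have h1 := (h' n).norm
  rw [norm_zero] at h1
  filter_upwards [h1.eventually (gt_mem_nhds hε)] with γ h2
  exact h2.le

theorem AV.zero_lim {F : G → L} {C : ℝ} (hC : ∀ γ, ‖F γ‖ ≤ C)
    (h' : ∀ n, Tendsto F (R.F n) (𝓝 0)) : AV R pd F := by
  refine (AV.const (R := R) (pd := pd) (0 : L)).congr hC fun n => ?_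
  simpa using h' n

theorem AV.smul {f : G → ℂ} {F : G → L} (hf : AV R pd f) (h : AV R pd F) : AV R pd fun γ => f γ • F γ := by
  obtain ⟨C, hC⟩ := h.bdd
  obtain ⟨D, hD⟩ := hf.bdd
  have hC0 : 0 ≤ C := (norm_nonneg _).trans (hC 1)
  have hD0 : 0 ≤ D := (norm_nonneg _).trans (hD 1)
  refine ⟨⟨D * C, fun γ => by
    rw [norm_smul]
    exact mul_le_mul (hD γ) (hC γ) (norm_nonneg _) hD0⟩, fun ε hε => ?_⟩
  obtain ⟨e, he, h1⟩ := hf.apx (ε / (2 * (C + 1))) (by positivity)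
  obtain ⟨D', hD'⟩ := SF.bdd he
  have hD0' : 0 ≤ D' := (norm_nonneg _).trans (hD' 1)
  obtain ⟨E, hE, h2⟩ := h.apx (ε / (2 * (D' + 1))) (by positivity)
  refine ⟨fun γ => e γ • E γ, SF.smul (fun ε hε => SF.uc he hε) hD' hE, fun n => ?_⟩
  filter_upwards [h1 n, h2 n] with γ h3 h4
  have e1 : f γ • F γ - e γ • E γ = (f γ - e γ) • F γ + e γ • (F γ - E γ) := by
    rw [sub_smul, smul_sub]
    abel
  rw [e1]
  refine (norm_add_le _ _).trans ?_
  rw [norm_smul, norm_smul]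
  have h5 : ‖f γ - e γ‖ * ‖F γ‖ ≤ ε / (2 * (C + 1)) * C := mul_le_mul h3 (hC γ) (norm_nonneg _) (by positivity)
  have h6 : ‖e γ‖ * ‖F γ - E γ‖ ≤ D' * (ε / (2 * (D' + 1))) := mul_le_mul (hD' γ) h4 (norm_nonneg _) hD0'
  have h7 : ε / (2 * (C + 1)) * C ≤ ε / 2 := by
    rw [div_mul_eq_mul_div, div_le_div_iff₀ (by positivity) (by positivity)]
    nlinarith
  have h8 : D' * (ε / (2 * (D' + 1))) ≤ ε / 2 := by
    rw [mul_div_assoc', div_le_div_iff₀ (by positivity) (by positivity)]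
    nlinarith
  linarith

theorem AV.conj {f : G → ℂ} (hf : AV R pd f) : AV R pd fun γ => (starRingEnd ℂ) (f γ) := by
  obtain ⟨C, hC⟩ := hf.bdd
  refine AV.lim (C := C) (fun γ => by rw [RCLike.norm_conj]; exact hC γ) fun ε hε => ?_
  obtain ⟨E, hE, h1⟩ := hf.apx ε hε
  obtain ⟨D, hD⟩ := SF.bdd hE
  refine ⟨fun γ => (starRingEnd ℂ) (E γ), AV.of_uc (UC.conj fun ε hε => SF.uc hE hε) (C := D)
    (fun γ => by rw [RCLike.norm_conj]; exact hD γ), fun n => ?_⟩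
  filter_upwards [h1 n] with γ h2
  rw [← map_sub, RCLike.norm_conj]
  exact h2

/-- Operators applied to vectors. -/
theorem AO.app {O : G → (L →L[ℂ] L')} {F : G → L} (hO : AO R pd O) (hF : AV R pd F) :
    AV R pd fun γ => O γ (F γ) := by
  obtain ⟨C, hC⟩ := hO.bdd
  obtain ⟨D, hD⟩ := hF.bdd
  have hC0 : 0 ≤ max C 0 := le_max_right _ _
  have hC1 : ∀ γ x, ‖O γ x‖ ≤ max C 0 * ‖x‖ := fun γ x =>
    (hC γ x).trans (mul_le_mul_of_nonneg_right (le_max_left _ _) (norm_nonneg _))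
  refine AV.lim (C := max C 0 * D) (fun γ => (hC1 γ _).trans (mul_le_mul_of_nonneg_left (hD γ) hC0)) fun ε hε => ?_
  obtain ⟨E, hE, h1⟩ := hF.apx (ε / (max C 0 + 1)) (by positivity)
  refine ⟨fun γ => O γ (E γ), ?_, fun n => ?_⟩
  · clear h1
    induction hE using Submodule.span_induction with
    | mem x hx =>
      obtain ⟨g, w, hg, ⟨D, hD⟩, rfl⟩ := hx
      have e : (fun γ => O γ (g γ • w)) = fun γ => g γ • O γ w := by
        funext γ
        rw [map_smul]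
      rw [e]
      exact (AV.of_uc hg hD).smul (hO.av w)
    | zero =>
      have e : (fun γ => O γ ((0 : G → L) γ)) = fun _ => 0 := by
        funext γ
        simp
      rw [e]
      exact AV.const 0
    | add x y _ _ hx hy =>
      have e : (fun γ => O γ ((x + y) γ)) = fun γ => O γ (x γ) + O γ (y γ) := by
        funext γ
        simp
      rw [e]
      exact hx.add hy
    | smul c x _ hx =>
      have e : (fun γ => O γ ((c • x) γ)) = fun γ => c • O γ (x γ) := by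
        funext γ
        simp
      rw [e]
      exact hx.csmul c
  · filter_upwards [h1 n] with γ h2
    rw [← map_sub]
    refine (hC1 γ _).trans ((mul_le_mul_of_nonneg_left h2 hC0).trans ?_)
    rw [mul_div_assoc', div_le_iff₀ (by positivity)]
    nlinarith

theorem AO.comp {O : G → (L' →L[ℂ] L'')} {O' : G → (L →L[ℂ] L')} (hO : AO R pd O) (hO' : AO R pd O') :
    AO R pd fun γ => (O γ).comp (O' γ) := by
  obtain ⟨C, hC⟩ := hO.bdd
  obtain ⟨D, hD⟩ := hO'.bdd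
  refine ⟨⟨max C 0 * D, fun γ x => ?_⟩, fun w => hO.app (hO'.av w)⟩
  change ‖O γ (O' γ x)‖ ≤ _
  have h1 : ‖O γ (O' γ x)‖ ≤ max C 0 * ‖O' γ x‖ :=
    (hC γ _).trans (mul_le_mul_of_nonneg_right (le_max_left _ _) (norm_nonneg _))
  rw [mul_assoc]
  exact h1.trans (mul_le_mul_of_nonneg_left (hD γ x) (le_max_right _ _))

theorem AO.const (A : L →L[ℂ] L') : AO R pd fun _ => A :=
  ⟨⟨‖A‖, fun _ x => A.le_opNorm x⟩, fun w => AV.const (A w)⟩

theorem AO.add {O O' : G → (L →L[ℂ] L')} (hO : AO R pd O) (hO' : AO R pd O') : AO R pd fun γ => O γ + O' γ := by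
  obtain ⟨C, hC⟩ := hO.bdd
  obtain ⟨D, hD⟩ := hO'.bdd
  refine ⟨⟨C + D, fun γ x => ?_⟩, fun w => (hO.av w).add (hO'.av w)⟩
  rw [add_mul]
  exact (norm_add_le _ _).trans (add_le_add (hC γ x) (hD γ x))

theorem AO.smul {f : G → ℂ} {O : G → (L →L[ℂ] L')} (hf : AV R pd f) (hO : AO R pd O) :
    AO R pd fun γ => f γ • O γ := by
  obtain ⟨C, hC⟩ := hO.bdd
  obtain ⟨D, hD⟩ := hf.bdd
  refine ⟨⟨D * C, fun γ x => ?_⟩, fun w => hf.smul (hO.av w)⟩
  rw [_root_.smul_apply, norm_smul, mul_assoc]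
  exact mul_le_mul (hD γ) (hC γ x) (norm_nonneg _) ((norm_nonneg _).trans (hD γ))

/-- A field of vectors as a field of operators. -/
theorem AO.of_av {F : G → L} (hF : AV R pd F) : AO R pd fun γ => ContinuousLinearMap.toSpanSingleton ℂ (F γ) := by
  obtain ⟨C, hC⟩ := hF.bdd
  refine ⟨⟨C, fun γ x => NI.mulF_bound hC γ x⟩, fun w => ?_⟩
  exact hF.csmul w

end AV

section Pou

variable {R : Reg G} {pd : PD G}

/-- A uniformly continuous partition of unity. -/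
theorem pou (pd : PD G) {δ : ℝ} (hδ : 0 < δ) : ∃ (F : Finset G) (f : G → G → ℝ),
    (∀ i γ, 0 ≤ f i γ) ∧ (∀ γ, ∑ i ∈ F, f i γ = 1) ∧ (∀ i γ, f i γ ≠ 0 → pd.d γ i < δ / 2) ∧
    ∀ i ∈ F, UC pd (fun γ => (f i γ : ℂ)) := by
  obtain ⟨F, hF⟩ := pd.tb (δ / 4) (by positivity)
  let φ : G → G → ℝ := fun i γ => max (δ / 2 - pd.d γ i) 0
  let Φ : G → ℝ := fun γ => ∑ i ∈ F, φ i γ
  have hφ0 : ∀ i γ, 0 ≤ φ i γ := fun i γ => le_max_right _ _
  have hδ4 : 0 < δ / 4 := by positivity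
  have hΦ : ∀ γ, δ / 4 ≤ Φ γ := by
    intro γ
    obtain ⟨i, hi, h⟩ := hF γ
    have h1 : φ i γ ≤ Φ γ := Finset.single_le_sum (f := fun j => φ j γ) (fun j _ => hφ0 j γ) hi
    have h2 : δ / 2 - pd.d γ i ≤ φ i γ := le_max_left _ _
    linarith
  have hΦ0 : ∀ γ, 0 < Φ γ := fun γ => lt_of_lt_of_le hδ4 (hΦ γ)
  have hφL : ∀ i γ γ', |φ i γ - φ i γ'| ≤ pd.d γ γ' := by
    intro i γ γ'
    have h1 := abs_max_sub_max_le_abs (δ / 2 - pd.d γ i) (δ / 2 - pd.d γ' i) 0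
    have h2 : |(δ / 2 - pd.d γ i) - (δ / 2 - pd.d γ' i)| ≤ pd.d γ γ' := by
      have h3 := pd.tri γ γ' i
      have h4 := pd.tri γ' γ i
      rw [pd.symm γ' γ] at h4
      rw [abs_le]
      constructor <;> linarith
    exact h1.trans h2
  have hΦL : ∀ γ γ', |Φ γ - Φ γ'| ≤ F.card * pd.d γ γ' := by
    intro γ γ'
    change |∑ i ∈ F, φ i γ - ∑ i ∈ F, φ i γ'| ≤ _
    rw [← Finset.sum_sub_distrib]
    refine (Finset.abs_sum_le_sum_abs _ _).trans ?_
    refine (Finset.sum_le_card_nsmul _ _ _ fun i _ => hφL i γ γ').trans ?_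
    rw [nsmul_eq_mul]
  refine ⟨F, fun i γ => φ i γ / Φ γ, ?_, ?_, ?_, ?_⟩
  · intro i γ
    exact div_nonneg (hφ0 i γ) (hΦ0 γ).le
  · intro γ
    rw [← Finset.sum_div]
    exact div_self (hΦ0 γ).ne'
  · intro i γ h
    by_contra hcon
    push Not at hcon
    apply h
    have h1 : φ i γ = 0 := max_eq_right (by linarith)
    change φ i γ / Φ γ = 0
    rw [h1, zero_div]
  · intro i hi ε hε
    have hc : 0 < (1 + (F.card : ℝ)) / (δ / 4) := by positivity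
    refine ⟨ε / ((1 + (F.card : ℝ)) / (δ / 4)), by positivity, fun γ γ' h => ?_⟩
    rw [← Complex.ofReal_sub, Complex.norm_real, Real.norm_eq_abs]
    have hd := d_nonneg pd γ γ'
    have h1 : φ i γ' / Φ γ' ≤ 1 := by
      rw [div_le_one (hΦ0 γ')]
      exact Finset.single_le_sum (f := fun j => φ j γ') (fun j _ => hφ0 j γ') hi
    have h1' : 0 ≤ φ i γ' / Φ γ' := div_nonneg (hφ0 i γ') (hΦ0 γ').le
    have h2 : φ i γ / Φ γ - φ i γ' / Φ γ' =
        ((φ i γ - φ i γ') - (φ i γ' / Φ γ') * (Φ γ - Φ γ')) / Φ γ := by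
      have h3 := (hΦ0 γ).ne'
      have h4 := (hΦ0 γ').ne'
      field_simp
      ring
    rw [h2, abs_div, abs_of_pos (hΦ0 γ)]
    have h5 : |(φ i γ - φ i γ') - (φ i γ' / Φ γ') * (Φ γ - Φ γ')| ≤
        (1 + (F.card : ℝ)) * pd.d γ γ' := by
      refine (abs_sub _ _).trans ?_
      rw [abs_mul, abs_of_nonneg h1']
      have h81 := hφL i γ γ'
      have h7 := hΦL γ γ'
      have h8 : φ i γ' / Φ γ' * |Φ γ - Φ γ'| ≤ 1 * (F.card * pd.d γ γ') :=
        mul_le_mul h1 h7 (abs_nonneg _) zero_le_one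
      linarith
    have h9 : (1 + (F.card : ℝ)) * pd.d γ γ' / Φ γ ≤ (1 + (F.card : ℝ)) * pd.d γ γ' / (δ / 4) :=
      div_le_div_of_nonneg_left (by positivity) hδ4 (hΦ γ)
    have h10 : (1 + (F.card : ℝ)) * pd.d γ γ' / (δ / 4) =
        (1 + (F.card : ℝ)) / (δ / 4) * pd.d γ γ' := by ring
    have h11 : (1 + (F.card : ℝ)) / (δ / 4) * pd.d γ γ' ≤ ε := by
      rw [lt_div_iff₀ hc] at h
      linarith
    exact ((div_le_div_of_nonneg_right h5 (hΦ0 γ).le).trans h9).trans (h10 ▸ h11)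

/-- Fields which are uniformly continuous at infinity in the sense of `PCF`. -/
theorem AV.of_pc {F : G → L} {C : ℝ} (hC : ∀ γ, ‖F γ‖ ≤ C)
    (h : ∀ ε : ℝ, 0 < ε → ∃ δ : ℝ, 0 < δ ∧ ∀ n : ℕ, ∃ s ∈ R.F n, ∀ γ ∈ s, ∀ γ' ∈ s,
      pd.d γ γ' < δ → ‖F γ - F γ'‖ ≤ ε) : AV R pd F := by
  classical
  have hmono : Monotone R.F := monotone_nat_of_le_succ R.monoF
  refine ⟨⟨C, hC⟩, fun ε hε => ?_⟩
  obtain ⟨δ, hδ, hO⟩ := h (ε / 2) (half_pos hε)
  choose s hs hs2 using hO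
  obtain ⟨I, f, hf0, hf1, hfd, hfU⟩ := pou pd hδ
  have hfle : ∀ i ∈ I, ∀ γ, ‖((f i γ : ℝ) : ℂ)‖ ≤ 1 := by
    intro i hi γ
    rw [Complex.norm_real, Real.norm_eq_abs, abs_of_nonneg (hf0 i γ), ← hf1 γ]
    exact Finset.single_le_sum (f := fun j => f j γ) (fun j _ => hf0 j γ) hi
  -- the first index where the support of `f i` is not negligible
  have hex : ∀ i : G, ∃ w : L, ∀ n, ∀ᶠ γ in R.F n, f i γ ≠ 0 → ‖F γ - w‖ ≤ ε := by
    intro i
    by_cases hi : ∃ n, ¬ ∀ᶠ γ in R.F n, f i γ = 0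
    · let N := Nat.find hi
      have hN : ¬ ∀ᶠ γ in R.F N, f i γ = 0 := Nat.find_spec hi
      have hN2 : ∀ m < N, ∀ᶠ γ in R.F m, f i γ = 0 := fun m hm => by
        have := Nat.find_min hi hm
        push Not at this
        exact this
      have h0 : ∃ᶠ γ in R.F N, f i γ ≠ 0 := Filter.not_eventually.1 hN
      obtain ⟨γ0, hγ0, hγs⟩ := (h0.and_eventually (hs N)).exists
      refine ⟨F γ0, fun n => ?_⟩
      rcases lt_or_ge n N with hn | hn
      · filter_upwards [hN2 n hn] with γ h1 h2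
        exact absurd h1 h2
      · have h1 : s n ∈ R.F N := hmono hn (hs n)
        obtain ⟨γ1, hγ1, hγ1s⟩ := (h0.and_eventually (inter_mem (hs N) h1)).exists
        filter_upwards [hs n] with γ hγ h2
        have h3 : pd.d γ γ1 < δ := by
          have a1 := hfd i γ h2
          have a2 := hfd i γ1 hγ1
          have a3 := pd.tri γ i γ1
          rw [pd.symm i γ1] at a3
          linarith
        have h4 : pd.d γ1 γ0 < δ := by
          have a1 := hfd i γ1 hγ1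
          have a2 := hfd i γ0 hγ0
          have a3 := pd.tri γ1 i γ0
          rw [pd.symm i γ0] at a3
          linarith
        have h5 := hs2 n γ hγ γ1 hγ1s.2 h3
        have h6 := hs2 N γ1 hγ1s.1 γ0 hγs h4
        have e : F γ - F γ0 = (F γ - F γ1) + (F γ1 - F γ0) := by abel
        rw [e]
        exact (norm_add_le _ _).trans (by linarith)
    · push Not at hi
      refine ⟨0, fun n => ?_⟩
      filter_upwards [hi n] with γ h1 h2
      exact absurd h1 h2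
  choose w hw using hex
  refine ⟨∑ i ∈ I, fun γ => ((f i γ : ℝ) : ℂ) • w i, Submodule.sum_mem _ fun i hi =>
    SF.one (hfU i hi) (hfle i hi) (w i), fun n => ?_⟩
  have h1 : ∀ᶠ γ in R.F n, ∀ i ∈ I, f i γ ≠ 0 → ‖F γ - w i‖ ≤ ε := by
    rw [Filter.eventually_all_finset]
    intro i _
    exact hw i n
  filter_upwards [h1] with γ h2
  have h3 : F γ - (∑ i ∈ I, fun γ => ((f i γ : ℝ) : ℂ) • w i) γ = ∑ i ∈ I, ((f i γ : ℝ) : ℂ) • (F γ - w i) := by
    have h4 : ∑ i ∈ I, ((f i γ : ℝ) : ℂ) • F γ = F γ := by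
      rw [← Finset.sum_smul, ← Complex.ofReal_sum, hf1, Complex.ofReal_one, one_smul]
    simp only [smul_sub, Finset.sum_sub_distrib]
    rw [h4, Finset.sum_apply]
  rw [h3]
  refine (norm_sum_le _ _).trans ?_
  have h5 : ∀ i ∈ I, ‖((f i γ : ℝ) : ℂ) • (F γ - w i)‖ ≤ f i γ * ε := by
    intro i hi
    rw [norm_smul, Complex.norm_real, Real.norm_eq_abs, abs_of_nonneg (hf0 i γ)]
    by_cases h4 : f i γ = 0
    · rw [h4, zero_mul, zero_mul]
    · exact mul_le_mul_of_nonneg_left (h2 i hi h4) (hf0 i γ)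
  refine (Finset.sum_le_sum h5).trans ?_
  rw [← Finset.sum_mul, hf1, one_mul]

theorem AO.of_pcf {O : G → (L →L[ℂ] L)} {C : ℝ} (hC : ∀ γ x, ‖O γ x‖ ≤ C * ‖x‖) (h : PCF R pd O) : AO R pd O :=
  ⟨⟨C, hC⟩, fun w => AV.of_pc (C := C * ‖w‖) (fun γ => hC γ w) fun ε hε => h w ε hε⟩

/-- The converse of `AV.of_pc`. -/
theorem AV.pc {F : G → L} (h : AV R pd F) {ε : ℝ} (hε : 0 < ε) : ∃ δ : ℝ, 0 < δ ∧ ∀ n : ℕ, ∃ s ∈ R.F n,
    ∀ γ ∈ s, ∀ γ' ∈ s, pd.d γ γ' < δ → ‖F γ - F γ'‖ ≤ ε := by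
  obtain ⟨E, hE, h1⟩ := h.apx (ε / 3) (by positivity)
  obtain ⟨δ, hδ, h2⟩ := SF.uc hE (ε := ε / 3) (by positivity)
  refine ⟨δ, hδ, fun n => ⟨_, h1 n, fun γ hγ γ' hγ' hd => ?_⟩⟩
  have h3 : ‖F γ - E γ‖ ≤ ε / 3 := hγ
  have h4 : ‖F γ' - E γ'‖ ≤ ε / 3 := hγ'
  have h5 := h2 γ γ' hd
  have e : F γ - F γ' = (F γ - E γ) + (E γ - E γ') - (F γ' - E γ') := by abel
  rw [e]
  refine (norm_sub_le _ _).trans ?_
  have h6 := norm_add_le (F γ - E γ) (E γ - E γ')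
  linarith

/-- Right translates. -/
theorem AV.shift (hP : PSh R pd) {F : G → L} (h : AV R pd F) (k : G) : AV R pd fun γ => F (γ * k) := by
  obtain ⟨C, hC⟩ := h.bdd
  refine AV.lim (C := C) (fun γ => hC _) fun ε hε => ?_
  obtain ⟨E, hE, h1⟩ := h.apx ε hε
  obtain ⟨D, hD⟩ := SF.bdd hE
  refine ⟨fun γ => E (γ * k), AV.of_pc (C := D) (fun γ => hD _) fun ε' hε' => ?_, fun n => ?_⟩
  · obtain ⟨δ, hδ, h2⟩ := SF.uc hE hε'
    obtain ⟨δ', hδ', h3⟩ := hP k δ hδ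
    refine ⟨δ', hδ', fun n => ?_⟩
    obtain ⟨s, hs, h4⟩ := h3 n
    exact ⟨s, hs, fun γ hγ γ' hγ' hd => h2 _ _ (h4 γ hγ γ' hγ' hd)⟩
  · obtain ⟨n', hn'⟩ := R.shift 1 k n
    have h2 := hn'.eventually (h1 n')
    filter_upwards [h2] with γ h3
    simpa using h3

/-- Left translates. -/
theorem AV.left (hP : PLf R pd) {F : G → L} (h : AV R pd F) (g : G) (n : ℕ) :
    Tendsto (fun γ => F (g⁻¹ * γ) - F γ) (R.F n) (𝓝 0) := by
  rw [tendsto_zero_iff_norm_tendsto_zero]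
  rw [Metric.tendsto_nhds]
  intro ε hε
  obtain ⟨E, hE, h1⟩ := h.apx (ε / 4) (by positivity)
  obtain ⟨δ, hδ, h2⟩ := SF.uc hE (ε := ε / 4) (by positivity)
  obtain ⟨n', hn'⟩ := R.shift g 1 n
  have h3 := hn'.eventually (h1 n')
  have h4 := (hP g n).eventually (gt_mem_nhds hδ)
  filter_upwards [h1 n, h3, h4] with γ a1 a2 a3
  rw [dist_zero_right, norm_norm]
  rw [mul_one] at a2
  have a4 := h2 γ _ a3
  have e : F (g⁻¹ * γ) - F γ = (F (g⁻¹ * γ) - E (g⁻¹ * γ)) - (E γ - E (g⁻¹ * γ)) - (F γ - E γ) := by abel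
  rw [e]
  have b1 := norm_sub_le ((F (g⁻¹ * γ) - E (g⁻¹ * γ)) - (E γ - E (g⁻¹ * γ))) (F γ - E γ)
  have b2 := norm_sub_le (F (g⁻¹ * γ) - E (g⁻¹ * γ)) (E γ - E (g⁻¹ * γ))
  linarith

end Pou

end Pool.Agent.Helper78.BM
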