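import Pool.Agent.Helper78.BM.AV
import Pool.Agent.Helper9.S3X.T1

/-!
# Project FP (MP_0f6f3f_an), boundary map: multiplication operators on the limit space

`Mf μ R f`: multiplication by the bounded function `f` on `XUa μ R`. `MV μ R F`: the operator `XUa → XVp` given by the bounded field `F` (well behaved if `F` is relatively compact at infinity or `AV`). Local operators
commute with `Mf f`, `f` in `AV` (`loc_Mf`), and conversely (`loc_of_Mf`).
-/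

set_option autoImplicit false
set_option linter.unusedSectionVars false

open MeasureTheory Filter Topology

namespace Pool.Agent.Helper78.BM

open Pool.Agent.Helper84 Pool.Agent.Helper84.GN Pool.Agent.Helper84.GN.S3 Pool.Agent.Helper84.GN.S3.X
open Pool.Agent.Helper84.NI Pool.Agent.Helper84.GVN Pool.Agent.Helper90.RK
open Pool.Agent.Helper96.RK Pool.Agent.Helper66.FR Pool.Agent.Helper84.FR Pool.Agent.Helper55.FR

section Mulop

variable {G : Type}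

theorem smul_id_bound {f : G → ℂ} {C : ℝ} (hC : ∀ γ, ‖f γ‖ ≤ C) (γ : G) (y : ℂ) :
    ‖(f γ • ContinuousLinearMap.id ℂ ℂ) y‖ ≤ C * ‖y‖ := by
  rw [_root_.smul_apply, norm_smul]
  exact mul_le_mul_of_nonneg_right (hC γ) (norm_nonneg _)

theorem mulop_app {f : G → ℂ} {C : ℝ} (hC : ∀ γ, ‖f γ‖ ≤ C) (x : L2 G) (γ : G) :
    mulop f x γ = f γ * x γ := by
  unfold mulop
  rw [dg_apply (smul_id_bound hC)]
  rw [_root_.smul_apply, ContinuousLinearMap.id_apply, smul_eq_mul]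

theorem norm_mulop_app {f : G → ℂ} {C : ℝ} (hC0 : 0 ≤ C) (hC : ∀ γ, ‖f γ‖ ≤ C) (x : L2 G) :
    ‖mulop f x‖ ≤ C * ‖x‖ := by
  unfold mulop
  exact norm_dg_le hC0 (smul_id_bound hC) x

theorem mulop_comp {f g : G → ℂ} {C D : ℝ} (hC : ∀ γ, ‖f γ‖ ≤ C) (hD : ∀ γ, ‖g γ‖ ≤ D) :
    (mulop f).comp (mulop g) = mulop fun γ => f γ * g γ := by
  ext x : 1
  refine l2_ext fun γ => ?_
  rw [ContinuousLinearMap.comp_apply, mulop_app hC, mulop_app hD,
    mulop_app (C := C * D) fun γ => by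
      rw [norm_mul]
      exact mul_le_mul (hC γ) (hD γ) (norm_nonneg _) ((norm_nonneg _).trans (hC γ)), mul_assoc]

theorem mulop_add {f g : G → ℂ} {C D : ℝ} (hC : ∀ γ, ‖f γ‖ ≤ C) (hD : ∀ γ, ‖g γ‖ ≤ D) :
    mulop f + mulop g = mulop fun γ => f γ + g γ := by
  ext x : 1
  refine l2_ext fun γ => ?_
  rw [_root_.add_apply, lp.coeFn_add, Pi.add_apply, mulop_app hC, mulop_app hD,
    mulop_app (C := C + D) fun γ => (norm_add_le _ _).trans (add_le_add (hC γ) (hD γ)), add_mul]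

theorem mulop_sub {f g : G → ℂ} {C D : ℝ} (hC : ∀ γ, ‖f γ‖ ≤ C) (hD : ∀ γ, ‖g γ‖ ≤ D) :
    mulop f - mulop g = mulop fun γ => f γ - g γ := by
  ext x : 1
  refine l2_ext fun γ => ?_
  rw [_root_.sub_apply, lp.coeFn_sub, Pi.sub_apply, mulop_app hC, mulop_app hD,
    mulop_app (C := C + D) fun γ => (norm_sub_le _ _).trans (add_le_add (hC γ) (hD γ)), sub_mul]

theorem mulop_const (c : ℂ) : mulop (fun _ : G => c) = c • ContinuousLinearMap.id ℂ (L2 G) := by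
  ext x : 1
  refine l2_ext fun γ => ?_
  rw [mulop_app (C := ‖c‖) fun _ => le_rfl]
  rfl

theorem mulop_adj {f : G → ℂ} {C : ℝ} (hC : ∀ γ, ‖f γ‖ ≤ C) :
    ContinuousLinearMap.adjoint (mulop f) = mulop fun γ => (starRingEnd ℂ) (f γ) := by
  symm
  rw [ContinuousLinearMap.eq_adjoint_iff]
  intro x y
  have hC' : ∀ γ, ‖(starRingEnd ℂ) (f γ)‖ ≤ C := fun γ => by
    rw [RCLike.norm_conj]
    exact hC γ
  refine (lv_inner _ _).unique ?_
  have h := lv_inner x (mulop f y)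
  convert h using 1
  funext γ
  rw [mulop_app hC, mulop_app hC', RCLike.inner_apply, RCLike.inner_apply]
  simp
  ring

end Mulop

variable {G X : Type} [Group G] [MeasurableSpace X] {μ : Measure X} {R : Reg G} {pd : PD G}

/-- Multiplication by a function on `XUa`. -/
noncomputable def Mf (μ : Measure X) (R : Reg G) (f : G → ℂ) : XUa μ R →L[ℂ] XUa μ R :=
  rst (UE.map μ (mulop f)) (XUa μ R) (XUa μ R) fun _ hx => mulop_memX R hx

theorem coe_Mf (f : G → ℂ) (x : XUa μ R) :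
    ((Mf μ R f x : XUa μ R) : UE μ (L2 G)) = UE.map μ (mulop f) (x : UE μ (L2 G)) := rfl

theorem norm_Mf_le {f : G → ℂ} {C : ℝ} (hC : ∀ γ, ‖f γ‖ ≤ C) (x : XUa μ R) : ‖Mf μ R f x‖ ≤ C * ‖x‖ := by
  have hC0 : 0 ≤ C := (norm_nonneg _).trans (hC 1)
  exact UE.norm_map_le_of hC0 (norm_mulop_app hC0 hC) (x : UE μ (L2 G))

theorem Mf_mul {f g : G → ℂ} {C D : ℝ} (hC : ∀ γ, ‖f γ‖ ≤ C) (hD : ∀ γ, ‖g γ‖ ≤ D) (x : XUa μ R) :
    Mf μ R f (Mf μ R g x) = Mf μ R (fun γ => f γ * g γ) x := by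
  apply Subtype.ext
  rw [coe_Mf, coe_Mf, coe_Mf, ← UE.map_comp, mulop_comp hC hD]

theorem Mf_add {f g : G → ℂ} {C D : ℝ} (hC : ∀ γ, ‖f γ‖ ≤ C) (hD : ∀ γ, ‖g γ‖ ≤ D) (x : XUa μ R) :
    Mf μ R (fun γ => f γ + g γ) x = Mf μ R f x + Mf μ R g x := by
  apply Subtype.ext
  rw [Submodule.coe_add, coe_Mf, coe_Mf, coe_Mf, ← UE.map_add, mulop_add hC hD]

theorem Mf_sub {f g : G → ℂ} {C D : ℝ} (hC : ∀ γ, ‖f γ‖ ≤ C) (hD : ∀ γ, ‖g γ‖ ≤ D) (x : XUa μ R) :
    Mf μ R (fun γ => f γ - g γ) x = Mf μ R f x - Mf μ R g x := by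
  apply Subtype.ext
  rw [Submodule.coe_sub, coe_Mf, coe_Mf, coe_Mf, ← UE.map_sub, mulop_sub hC hD]

theorem Mf_const (c : ℂ) (x : XUa μ R) : Mf μ R (fun _ => c) x = c • x := by
  apply Subtype.ext
  rw [Submodule.coe_smul, coe_Mf, mulop_const, UE.map_smul, UE.map_id]

theorem Mf_smul {f : G → ℂ} {C : ℝ} (hC : ∀ γ, ‖f γ‖ ≤ C) (c : ℂ) (x : XUa μ R) :
    Mf μ R (fun γ => c * f γ) x = c • Mf μ R f x := by
  rw [← Mf_mul (f := fun _ => c) (C := ‖c‖) (fun _ => le_rfl) hC, Mf_const]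

theorem Mf_adj {f : G → ℂ} {C : ℝ} (hC : ∀ γ, ‖f γ‖ ≤ C) (x y : XUa μ R) :
    inner ℂ (Mf μ R f x) y = inner ℂ x (Mf μ R (fun γ => (starRingEnd ℂ) (f γ)) y) := by
  have h := UE.inner_map (μ := μ) (mulop f) (x : UE μ (L2 G)) (y : UE μ (L2 G))
  rw [mulop_adj hC] at h
  exact h

/-- The operator only depends on the function at infinity. -/
theorem Mf_small {f : G → ℂ} {C : ℝ} (hC : ∀ γ, ‖f γ‖ ≤ C) {ε : ℝ} (hε : 0 ≤ ε)
    (h : ∀ n, ∀ᶠ γ in R.F n, ‖f γ‖ ≤ ε) (x : XUa μ R) : ‖Mf μ R f x‖ ≤ ε * ‖x‖ := by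
  classical
  have hs : ∀ n, {γ | ‖f γ‖ ≤ ε} ∈ R.F n := h
  have h1 := XUa_ind R hs x.2
  have hC' : ∀ γ, ‖({γ | ‖f γ‖ ≤ ε} : Set G).indicator f γ‖ ≤ ε := by
    intro γ
    unfold Set.indicator
    split_ifs with h2
    · exact h2
    · rw [norm_zero]
      exact hε
  have e : (mulop f).comp (ind ℂ {γ | ‖f γ‖ ≤ ε}) = mulop (({γ | ‖f γ‖ ≤ ε} : Set G).indicator f) := by
    ext y : 1
    refine l2_ext fun γ => ?_
    rw [ContinuousLinearMap.comp_apply, mulop_app hC, mulop_app hC', ind_apply]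
    unfold Set.indicator
    split_ifs <;> simp
  have h2 : (Mf μ R f x : UE μ (L2 G)) =
      UE.map μ (mulop (({γ | ‖f γ‖ ≤ ε} : Set G).indicator f)) (x : UE μ (L2 G)) := by
    rw [coe_Mf, ← e, UE.map_comp, h1]
  change ‖(Mf μ R f x : UE μ (L2 G))‖ ≤ ε * ‖(x : UE μ (L2 G))‖
  rw [h2]
  exact UE.norm_map_le_of hε (norm_mulop_app hε hC') _

theorem Mf_zero {f : G → ℂ} {C : ℝ} (hC : ∀ γ, ‖f γ‖ ≤ C) (h : ∀ n, Tendsto f (R.F n) (𝓝 0)) (x : XUa μ R) :
    Mf μ R f x = 0 := by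
  have h1 : ∀ ε : ℝ, 0 < ε → ‖Mf μ R f x‖ ≤ ε * ‖x‖ := fun ε hε => by
    refine Mf_small hC hε.le (fun n => ?_) x
    have h2 := (h n).norm
    rw [norm_zero] at h2
    filter_upwards [h2.eventually (gt_mem_nhds hε)] with γ h3
    exact h3.le
  by_contra hne
  have hpos : 0 < ‖Mf μ R f x‖ := norm_pos_iff.2 hne
  have h2 := h1 (‖Mf μ R f x‖ / (2 * (‖x‖ + 1))) (by positivity)
  rw [div_mul_eq_mul_div, le_div_iff₀ (by positivity)] at h2
  nlinarith [norm_nonneg x]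

theorem Mf_congr {f g : G → ℂ} {C D : ℝ} (hC : ∀ γ, ‖f γ‖ ≤ C) (hD : ∀ γ, ‖g γ‖ ≤ D)
    (h : ∀ n, Tendsto (fun γ => f γ - g γ) (R.F n) (𝓝 0)) (x : XUa μ R) : Mf μ R f x = Mf μ R g x := by
  have h1 := Mf_zero (μ := μ) (R := R) (f := fun γ => f γ - g γ) (C := C + D)
    (fun γ => (norm_sub_le _ _).trans (add_le_add (hC γ) (hD γ))) h x
  rw [Mf_sub hC hD, sub_eq_zero] at h1
  exact h1

theorem Mf_XBU {f : G → ℂ} {C : ℝ} (hC : ∀ γ, ‖f γ‖ ≤ C) (k : G) (x : XUa μ R) :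
    XBU R k (Mf μ R f x) = Mf μ R (fun γ => f (γ * k)) (XBU R k x) := by
  apply Subtype.ext
  change UE.map μ ((rhoU k).toContinuousLinearEquiv : L2 G →L[ℂ] L2 G) (UE.map μ (mulop f) (x : UE μ (L2 G))) =
    UE.map μ (mulop fun γ => f (γ * k)) (UE.map μ ((rhoU k).toContinuousLinearEquiv : L2 G →L[ℂ] L2 G)
      (x : UE μ (L2 G)))
  rw [← UE.map_comp, ← UE.map_comp]
  refine congrArg (fun S : L2 G →L[ℂ] L2 G => UE.map μ S (x : UE μ (L2 G))) ?_
  ext y : 1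
  refine l2_ext fun γ => ?_
  change rhoU k (mulop f y) γ = mulop (fun γ => f (γ * k)) (rhoU k y) γ
  rw [rhoU_apply, mulop_app hC, mulop_app (C := C) fun γ => hC _, rhoU_apply]

theorem Mf_XAU {f : G → ℂ} {C : ℝ} (hC : ∀ γ, ‖f γ‖ ≤ C) (k : G) (x : XUa μ R) :
    XAU R k (Mf μ R f x) = Mf μ R (fun γ => f (k⁻¹ * γ)) (XAU R k x) := by
  apply Subtype.ext
  change UE.map μ ((lamU k).toContinuousLinearEquiv : L2 G →L[ℂ] L2 G) (UE.map μ (mulop f) (x : UE μ (L2 G))) =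
    UE.map μ (mulop fun γ => f (k⁻¹ * γ)) (UE.map μ ((lamU k).toContinuousLinearEquiv : L2 G →L[ℂ] L2 G)
      (x : UE μ (L2 G)))
  rw [← UE.map_comp, ← UE.map_comp]
  refine congrArg (fun S : L2 G →L[ℂ] L2 G => UE.map μ S (x : UE μ (L2 G))) ?_
  ext y : 1
  refine l2_ext fun γ => ?_
  change lamU k (mulop f y) γ = mulop (fun γ => f (k⁻¹ * γ)) (lamU k y) γ
  rw [lamU_apply, mulop_app hC, mulop_app (C := C) fun γ => hC _, lamU_apply]

/-- Fields which are uniformly continuous at infinity commute with the left translations. -/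
theorem Mf_left (hP : PLf R pd) {f : G → ℂ} (hf : AV R pd f) (k : G) (x : XUa μ R) :
    XAU R k (Mf μ R f x) = Mf μ R f (XAU R k x) := by
  obtain ⟨C, hC⟩ := hf.bdd
  rw [Mf_XAU hC]
  exact Mf_congr (C := C) (D := C) (fun γ => hC _) hC (fun n => hf.left hP k n) _

section Loc

theorem Mf_ind (A : Set G) (x : XUa μ R) : iUX R A x = Mf μ R (A.indicator fun _ => (1 : ℂ)) x := by
  classical
  apply Subtype.ext
  rw [coe_iUX, coe_Mf]
  refine congrArg (fun S : L2 G →L[ℂ] L2 G => UE.map μ S (x : UE μ (L2 G))) ?_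
  ext y : 1
  refine l2_ext fun γ => ?_
  rw [ind_apply, mulop_app (C := 1) fun γ => by
    unfold Set.indicator
    split_ifs <;> simp]
  unfold Set.indicator
  split_ifs <;> simp

/-- Local operators commute with the functions which are uniformly continuous at infinity. -/
theorem loc_Mf {T : XUa μ R →L[ℂ] XUa μ R} (hT : LocX R pd T) {f : G → ℂ} (hf : AV R pd f) (x : XUa μ R) :
    T (Mf μ R f x) = Mf μ R f (T x) := by
  obtain ⟨C, hC⟩ := hf.bdd
  by_contra hne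
  have hpos : 0 < ‖T (Mf μ R f x) - Mf μ R f (T x)‖ := norm_pos_iff.2 (sub_ne_zero.2 hne)
  obtain ⟨ε, hε, hε2⟩ : ∃ ε : ℝ, 0 < ε ∧ ε * (2 * ‖T‖ * ‖x‖) < ‖T (Mf μ R f x) - Mf μ R f (T x)‖ := by
    refine ⟨‖T (Mf μ R f x) - Mf μ R f (T x)‖ / (2 * (2 * ‖T‖ * ‖x‖ + 1)), by positivity, ?_⟩
    rw [div_mul_eq_mul_div, div_lt_iff₀ (by positivity)]
    have h0 : 0 ≤ 2 * ‖T‖ * ‖x‖ := by positivity
    nlinarith
  obtain ⟨E, hE, h1⟩ := hf.apx ε hε
  obtain ⟨D, hD⟩ := SF.bdd hE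
  have hE1 : T (Mf μ R E x) = Mf μ R E (T x) :=
    Subtype.ext (loc_scalarX hT (f := E) (fun ε hε => SF.uc hE hε) hD x)
  have hd : ∀ γ, ‖f γ - E γ‖ ≤ C + D := fun γ => (norm_sub_le _ _).trans (add_le_add (hC γ) (hD γ))
  have e : T (Mf μ R f x) - Mf μ R f (T x) =
      T (Mf μ R (fun γ => f γ - E γ) x) - Mf μ R (fun γ => f γ - E γ) (T x) := by
    rw [Mf_sub hC hD, Mf_sub hC hD, map_sub, hE1]
    abel
  have h2 : ‖T (Mf μ R (fun γ => f γ - E γ) x)‖ ≤ ‖T‖ * (ε * ‖x‖) :=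
    (T.le_opNorm _).trans (mul_le_mul_of_nonneg_left (Mf_small hd hε.le h1 x) (norm_nonneg _))
  have h3 : ‖Mf μ R (fun γ => f γ - E γ) (T x)‖ ≤ ε * (‖T‖ * ‖x‖) :=
    (Mf_small hd hε.le h1 _).trans (mul_le_mul_of_nonneg_left (T.le_opNorm x) hε.le)
  rw [e] at hε2
  have h4 := norm_sub_le (T (Mf μ R (fun γ => f γ - E γ) x)) (Mf μ R (fun γ => f γ - E γ) (T x))
  nlinarith

/-- Operators which commute with the uniformly continuous functions are local. -/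
theorem loc_of_Mf {T : XUa μ R →L[ℂ] XUa μ R}
    (h : ∀ f : G → ℂ, UC pd f → (∃ C : ℝ, ∀ γ, ‖f γ‖ ≤ C) → ∀ x, T (Mf μ R f x) = Mf μ R f (T x)) : LocX R pd T := by
  classical
  intro A B δ hδ hAB x
  by_cases hA : A.Nonempty
  · obtain ⟨γA, hγA⟩ := hA
    -- the distance function to `A`
    have hbd : ∀ γ, BddBelow (Set.range fun γ' : A => min (pd.d γ γ' / δ) 1) := by
      intro γ
      refine ⟨0, ?_⟩
      rintro _ ⟨γ', rfl⟩
      exact le_min (div_nonneg (d_nonneg pd _ _) hδ.le) zero_le_one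
    have hne : Nonempty A := ⟨⟨γA, hγA⟩⟩
    obtain ⟨g, hg⟩ : ∃ g : G → ℝ, g = fun γ => ⨅ γ' : A, min (pd.d γ γ' / δ) 1 := ⟨_, rfl⟩
    have g0 : ∀ γ, 0 ≤ g γ := by
      intro γ
      rw [hg]
      exact le_ciInf fun γ' => le_min (div_nonneg (d_nonneg pd _ _) hδ.le) zero_le_one
    have g1 : ∀ γ, g γ ≤ 1 := by
      intro γ
      rw [hg]
      exact (ciInf_le (hbd γ) ⟨γA, hγA⟩).trans (min_le_right _ _)
    have gA : ∀ γ ∈ A, g γ = 0 := by
      intro γ hγ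
      refine le_antisymm ?_ (g0 γ)
      rw [hg]
      refine (ciInf_le (hbd γ) ⟨γ, hγ⟩).trans ((min_le_left _ _).trans ?_)
      change pd.d γ γ / δ ≤ 0
      rw [pd.self, zero_div]
    have gB : ∀ γ ∈ B, g γ = 1 := by
      intro γ hγ
      refine le_antisymm (g1 γ) ?_
      rw [hg]
      refine le_ciInf fun γ' => le_min ?_ le_rfl
      rw [le_div_iff₀ hδ, one_mul, pd.symm]
      exact hAB γ' γ'.2 γ hγ
    have gL : ∀ γ γ', g γ ≤ g γ' + pd.d γ γ' / δ := by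
      intro γ γ'
      have h1 : g γ - pd.d γ γ' / δ ≤ g γ' := by
        conv_rhs => rw [hg]
        refine le_ciInf fun γ'' => ?_
        have h2 : g γ ≤ min (pd.d γ γ'' / δ) 1 := by
          rw [hg]
          exact ciInf_le (hbd γ) γ''
        have h3 := pd.tri γ γ' γ''
        have h4 : pd.d γ γ'' / δ ≤ pd.d γ γ' / δ + pd.d γ' γ'' / δ := by
          rw [← add_div]
          exact div_le_div_of_nonneg_right h3 hδ.le
        have h5 : 0 ≤ pd.d γ γ' / δ := div_nonneg (d_nonneg pd _ _) hδ.le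
        refine le_min ?_ ?_
        · linarith [min_le_left (pd.d γ γ'' / δ) 1]
        · linarith [min_le_right (pd.d γ γ'' / δ) 1]
      linarith
    have gUC : UC pd fun γ => ((g γ : ℝ) : ℂ) := by
      intro ε hε
      refine ⟨ε * δ, by positivity, fun γ γ' hd => ?_⟩
      rw [← Complex.ofReal_sub, Complex.norm_real, Real.norm_eq_abs, abs_le]
      have h1 := gL γ γ'
      have h2 := gL γ' γ
      rw [pd.symm γ' γ] at h2
      have h3 : pd.d γ γ' / δ < ε := by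
        rwa [div_lt_iff₀ hδ]
      constructor <;> linarith
    have gC : ∀ γ, ‖((g γ : ℝ) : ℂ)‖ ≤ 1 := by
      intro γ
      rw [Complex.norm_real, Real.norm_eq_abs, abs_of_nonneg (g0 γ)]
      exact g1 γ
    have hi : ∀ (A : Set G) γ, ‖(A.indicator fun _ => (1 : ℂ)) γ‖ ≤ 1 := by
      intro A γ
      unfold Set.indicator
      split_ifs <;> simp
    have h1 := h (fun γ => ((g γ : ℝ) : ℂ)) gUC ⟨1, gC⟩ (iUX R A x)
    rw [Mf_ind, Mf_mul gC (hi A)] at h1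
    have e1 : (fun γ => ((g γ : ℝ) : ℂ) * (A.indicator fun _ => (1 : ℂ)) γ) = fun _ => 0 := by
      funext γ
      unfold Set.indicator
      split_ifs with h2
      · rw [gA γ h2, Complex.ofReal_zero, zero_mul]
      · rw [mul_zero]
    rw [e1, Mf_const, zero_smul, map_zero, ← Mf_ind] at h1
    have e2 : (B.indicator fun _ => (1 : ℂ)) =
        fun γ => (B.indicator fun _ => (1 : ℂ)) γ * ((g γ : ℝ) : ℂ) := by
      funext γ
      unfold Set.indicator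
      split_ifs with h2
      · rw [gB γ h2, Complex.ofReal_one, mul_one]
      · rw [zero_mul]
    rw [Mf_ind B, e2, ← Mf_mul (hi B) gC, ← h1, map_zero]
  · rw [Set.not_nonempty_iff_eq_empty] at hA
    subst hA
    have h1 : iUX R (∅ : Set G) x = 0 := by
      rw [Mf_ind]
      have e : ((∅ : Set G).indicator fun _ => (1 : ℂ)) = fun _ => 0 := by
        funext γ
        simp
      rw [e, Mf_const, zero_smul]
    rw [h1, map_zero, map_zero]

end Loc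

section Vec

variable {L : Type} [NormedAddCommGroup L] [InnerProductSpace ℂ L] [CompleteSpace L]

/-- The operator `XUa → XVp` given by a field of vectors. -/
noncomputable def MV (μ : Measure X) (R : Reg G) (F : G → L) : XUa μ R →L[ℂ] XVp μ R L :=
  (XVp μ R L).orthogonalProjectionOnto.comp ((UE.map μ (mulF F)).comp (XUa μ R).subtypeL)

/-- The field acts on the limit space. -/
def MemV (μ : Measure X) (R : Reg G) (F : G → L) : Prop :=
  (∃ C : ℝ, ∀ γ, ‖F γ‖ ≤ C) ∧ ∀ a ∈ XUa μ R, UE.map μ (mulF F) a ∈ XVp μ R L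

theorem memV_of_cpt {F : G → L} {C : ℝ} (hC : ∀ γ, ‖F γ‖ ≤ C)
    (h : ∀ n, ∃ K : Set L, IsCompact K ∧ ∀ᶠ γ in R.F n, F γ ∈ K) : MemV μ R F :=
  ⟨⟨C, hC⟩, fun _ ha => xmap_mulF_mem R hC h ha⟩

theorem coe_MV {F : G → L} (h : MemV μ R F) (x : XUa μ R) :
    ((MV μ R F x : XVp μ R L) : UE μ (Lv G L)) = UE.map μ (mulF F) (x : UE μ (L2 G)) := by
  change (((XVp μ R L).orthogonalProjectionOnto (UE.map μ (mulF F) (x : UE μ (L2 G))) : XVp μ R L) :
    UE μ (Lv G L)) = _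
  exact Submodule.starProjection_eq_self_iff.2 (h.2 _ x.2)

theorem inner_MV {F F' : G → L} (h : MemV μ R F) (h' : MemV μ R F') (x y : XUa μ R) :
    inner ℂ (MV μ R F x) (MV μ R F' y) = inner ℂ x (Mf μ R (fun γ => inner ℂ (F γ) (F' γ)) y) := by
  obtain ⟨C, hC⟩ := h.1
  obtain ⟨D, hD⟩ := h'.1
  change inner ℂ ((MV μ R F x : XVp μ R L) : UE μ (Lv G L)) ((MV μ R F' y : XVp μ R L) : UE μ (Lv G L)) =
    inner ℂ (x : UE μ (L2 G)) ((Mf μ R (fun γ => inner ℂ (F γ) (F' γ)) y : XUa μ R) : UE μ (L2 G))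
  rw [coe_MV h, coe_MV h', coe_Mf, UE.inner_map, ← UE.map_comp]
  refine congrArg (fun S : L2 G →L[ℂ] L2 G => (inner ℂ (x : UE μ (L2 G)) (UE.map μ S (y : UE μ (L2 G))) : ℂ)) ?_
  ext z : 1
  refine ext_inner_left ℂ fun w => ?_
  rw [ContinuousLinearMap.comp_apply, ContinuousLinearMap.adjoint_inner_right]
  refine (lv_inner _ _).unique ?_
  have h1 := lv_inner w (mulop (fun γ => inner ℂ (F γ) (F' γ)) z)
  convert h1 using 1
  funext γ
  have hB : ∀ γ, ‖(inner ℂ (F γ) (F' γ) : ℂ)‖ ≤ C * D := fun γ =>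
    (norm_inner_le_norm _ _).trans (mul_le_mul (hC γ) (hD γ) (norm_nonneg _) ((norm_nonneg _).trans (hC γ)))
  rw [mulF_apply hC, mulF_apply hD, mulop_app hB, inner_smul_left, inner_smul_right, RCLike.inner_apply]
  ring

end Vec

end Pool.Agent.Helper78.BM
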