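import Pool.Agent.Helper78.BM.Phi
import Pool.Agent.Helper78.BM.Pos
import Pool.Agent.Helper9.S3X.LM
import Pool.Agent.Helper9.S3X.ZS

/-!
# Project FP (MP_0f6f3f_an), boundary map: existence

If two gaps are never reached on the subgroup `F`, `b n ∈ F`, the vector of `b` has a component in the stratum of the last gap and the contracted elements of `b` act ergodically, then there is a boundary map for
the positions of this stratum.
-/

set_option autoImplicit false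
set_option linter.unusedSectionVars false

open MeasureTheory Filter Topology

namespace Pool.Agent.Helper78.BM

open Pool.Agent.Helper84 Pool.Agent.Helper84.GN Pool.Agent.Helper84.GN.S3 Pool.Agent.Helper84.GN.S3.X
open Pool.Agent.Helper84.NI Pool.Agent.Helper84.GVN Pool.Agent.Helper90.RK
open Pool.Agent.Helper96.RK Pool.Agent.Helper66.FR Pool.Agent.Helper84.FR Pool.Agent.Helper55.FR

variable {G1 X G Λ : Type} [Group G1] [TopologicalSpace G1] [IsTopologicalGroup G1] [MeasurableSpace X] [MulAction G1 X]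
  [MeasurableConstSMul G1 X] [Group G] [Group Λ] [Countable Λ] {μ : Measure X} [SMulInvariantMeasure G1 X μ]
  [IsProbabilityMeasure μ] {a : Cocy G1 X Λ} {E : Emb Λ G} {N : ℕ} {P : PH G N}

/-- Existence of the boundary map on the stratum of the last gap. -/
theorem exists_bmap (hN : 3 ≤ N) (S : Sv P) (F : Subgroup G1)
    (hH : ∀ β : ℝ, 0 < β → ∃ R : ℝ, ∀ f ∈ F, ‖cl μ (ind ℂ (Bad S R)) (zx μ a E f)‖ ≤ β) {b : ℕ → G1} (hb : ∀ n, b n ∈ F)
    (h3 : Tendsto (fun g : G1 => μ {x | a.a g x ≠ 1}) (𝓝 1) (𝓝 0)) (hE : ErgU μ a E (Ctr b))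
    (h0 : XPpr (GN.toReg (Sm S)) (vec μ a E b) ≠ 0) :
    Nonempty (BMap μ a E (GN.toReg (Sm S)) (posPD S (Sm S).b) b) := by
  refine ⟨⟨‖XPpr (GN.toReg (Sm S)) (vec μ a E b)‖ ^ 2, by positivity, exists_mass hE h3, ?_⟩⟩
  exact loc_mainX hN S F hH hb F.one_mem F.one_mem

/-- Existence of the boundary map: if the last gap is reached on `F` and two gaps are not. -/
theorem exists_bmap' (hN : 3 ≤ N) (S : Sv P) (F : Subgroup G1)
    (hH : ∀ β : ℝ, 0 < β → ∃ R : ℝ, ∀ f ∈ F, ‖cl μ (ind ℂ (Bad S R)) (zx μ a E f)‖ ≤ β)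
    (h3 : Tendsto (fun g : G1 => μ {x | a.a g x ≠ 1}) (𝓝 1) (𝓝 0)) {β : ℝ} (hβ : 0 < β)
    (hL : ∀ R : ℝ, ∃ f ∈ F, β ≤ ‖cl μ (ind ℂ (Last S R)) (zx μ a E f)‖)
    (hE : ∀ b : ℕ → G1, (∀ n, b n ∈ F) → XPpr (GN.toReg (Sm S)) (vec μ a E b) ≠ 0 → ErgU μ a E (Ctr b)) :
    ∃ b : ℕ → G1, (∀ n, b n ∈ F) ∧ XPpr (GN.toReg (Sm S)) (vec μ a E b) ≠ 0 ∧
      Nonempty (BMap μ a E (GN.toReg (Sm S)) (posPD S (Sm S).b) b) := by
  obtain ⟨b, hb, h0⟩ := exists_startX hN S F hH hβ hL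
  exact ⟨b, hb, h0, exists_bmap hN S F hH hb h3 (hE b hb h0) h0⟩

end Pool.Agent.Helper78.BM
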