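import Pool.Agent.Helper78.BM.Act
import Pool.Agent.Helper9.S3X.K1

/-!
# Project FP (MP_0f6f3f_an), boundary map: the operator `T = TT 1 : L²(X; ℓ²(G)) → XUa` and the operators `V_q`

`T V_q φ` is the class of `WW (b n q) φ`. If `b n q (b n)⁻¹ → 1`, then `T V_q = sSU c T`, `c n = b n q (b n)⁻¹`, where `sSU c` is the limit of the shifts of the base point (`T_contr`). If `q` commutes with `b`, then
`T V_q = opL q T` (`T_cen`).
-/

set_option autoImplicit false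
set_option linter.unusedSectionVars false

open MeasureTheory Filter Topology

namespace Pool.Agent.Helper78.BM

open Pool.Agent.Helper84 Pool.Agent.Helper84.GN Pool.Agent.Helper84.GN.S3 Pool.Agent.Helper84.GN.S3.X
open Pool.Agent.Helper84.NI Pool.Agent.Helper84.GVN Pool.Agent.Helper90.RK
open Pool.Agent.Helper96.RK Pool.Agent.Helper66.FR Pool.Agent.Helper84.FR Pool.Agent.Helper55.FR

variable {G1 X G Λ : Type} [Group G1] [MeasurableSpace X] [MulAction G1 X] [MeasurableConstSMul G1 X]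
  [Group G] [Group Λ] [Countable Λ] {μ : Measure X} [SMulInvariantMeasure G1 X μ] [IsProbabilityMeasure μ]
  {a : Cocy G1 X Λ} {E : Emb Λ G} {R : Reg G} {b : ℕ → G1}

/-- The boundary operator. -/
noncomputable abbrev Tb (μ : Measure X) [SMulInvariantMeasure G1 X μ] [IsProbabilityMeasure μ] (a : Cocy G1 X Λ)
    (E : Emb Λ G) (R : Reg G) (b : ℕ → G1) : XL μ (L2 G) →L[ℂ] XUa μ R := TT μ a E R b 1

/-- The unitary operators `V_q`. -/
noncomputable abbrev Vq (μ : Measure X) [SMulInvariantMeasure G1 X μ] (a : Cocy G1 X Λ) (E : Emb Λ G) (q : G1) :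
    XL μ (L2 G) →L[ℂ] XL μ (L2 G) := vg μ a (jjR E) q

/-- The unitary operators `W_k`. -/
noncomputable abbrev Wk (μ : Measure X) (k : G) : XL μ (L2 G) →L[ℂ] XL μ (L2 G) :=
  cl μ ((lamU k).toContinuousLinearEquiv : L2 G →L[ℂ] L2 G)

theorem Tb_W (k : G) (φ : XL μ (L2 G)) : Tb μ a E R b (Wk μ k φ) = XBU R k (Tb μ a E R b φ) := TT_lam 1 k φ

theorem Tb_xE {D : Set X} (hD : MeasurableSet D) (φ : XL μ (L2 G)) :
    Tb μ a E R b (xE μ (L2 G) D φ) = (pyU μ b R).p D (Tb μ a E R b φ) := by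
  have h := TT_xE (a := a) (E := E) (R := R) (b := b) 1 hD φ
  simpa using h

theorem Tb_eq (φ : XL μ (L2 G)) : Tb μ a E R b φ = XPpr R (KK μ a E b φ) := by
  change XPpr R (KK μ a E (fun n => b n * 1⁻¹) φ) = _
  simp

theorem Tb_V (q : G1) (φ : XL μ (L2 G)) :
    Tb μ a E R b (Vq μ a E q φ) = XPpr R (KK μ a E (fun n => b n * q) φ) := by
  rw [Tb_eq]
  congr 1
  refine UE.eq ?_
  rw [val_KK, val_KK]
  congr 1
  apply Subtype.ext
  funext n
  change WW μ a E (b n) (vg μ a (jjR E) q φ) = WW μ a E (b n * q) φ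
  have h := WW_vg (μ := μ) (a := a) (E := E) (b n * q) q φ
  rwa [mul_inv_cancel_right] at h

section Shift

/-- The shifts of the base point on `XUa`. -/
noncomputable def sSU (μ : Measure X) [SMulInvariantMeasure G1 X μ] [IsProbabilityMeasure μ] (R : Reg G) (c : ℕ → G1) :
    XUa μ R →L[ℂ] XUa μ R :=
  rst ((UE.sS μ (L2 G) c).toContinuousLinearEquiv : UE μ (L2 G) →L[ℂ] UE μ (L2 G)) (XUa μ R) (XUa μ R)
    (XUa_inv (T := ((UE.sS μ (L2 G) c).toContinuousLinearEquiv : UE μ (L2 G) →L[ℂ] UE μ (L2 G)))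
      fun s ξ => UE.map_sS (ind ℂ s) c ξ)

theorem coe_sSU (c : ℕ → G1) (x : XUa μ R) : ((sSU μ R c x : XUa μ R) : UE μ (L2 G)) = UE.sS μ (L2 G) c x := rfl

theorem norm_sSU (c : ℕ → G1) (x : XUa μ R) : ‖sSU μ R c x‖ = ‖x‖ := by
  change ‖UE.sS μ (L2 G) c (x : UE μ (L2 G))‖ = ‖(x : UE μ (L2 G))‖
  exact LinearIsometryEquiv.norm_map _ _

theorem inner_sSU (c : ℕ → G1) (x y : XUa μ R) : inner ℂ (sSU μ R c x) (sSU μ R c y) = inner ℂ x y :=
  (UE.sS μ (L2 G) c).inner_map_map (x : UE μ (L2 G)) (y : UE μ (L2 G))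

theorem sS_inv (c : ℕ → G1) (ξ : UE μ (L2 G)) :
    UE.sS μ (L2 G) (fun n => (c n)⁻¹) (UE.sS μ (L2 G) c ξ) = ξ := by
  rw [← UE.sS_mul]
  simp only [inv_mul_cancel]
  exact UE.sS_one ξ

theorem sS_inv' (c : ℕ → G1) (ξ : UE μ (L2 G)) :
    UE.sS μ (L2 G) c (UE.sS μ (L2 G) (fun n => (c n)⁻¹) ξ) = ξ := by
  rw [← UE.sS_mul]
  simp only [mul_inv_cancel]
  exact UE.sS_one ξ

theorem XPpr_sS (c : ℕ → G1) (ξ : UE μ (L2 G)) : XPpr R (UE.sS μ (L2 G) c ξ) = sSU μ R c (XPpr R ξ) := by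
  apply Subtype.ext
  have h := proj_comm (V := XUa μ R)
    (T := ((UE.sS μ (L2 G) c).toContinuousLinearEquiv : UE μ (L2 G) →L[ℂ] UE μ (L2 G)))
    (T' := ((UE.sS μ (L2 G) fun n => (c n)⁻¹).toContinuousLinearEquiv : UE μ (L2 G) →L[ℂ] UE μ (L2 G)))
    (fun x y => by
      change inner ℂ (UE.sS μ (L2 G) c x) y = inner ℂ x (UE.sS μ (L2 G) (fun n => (c n)⁻¹) y)
      rw [← (UE.sS μ (L2 G) c).inner_map_map x, sS_inv'])
    (XUa_inv (T := ((UE.sS μ (L2 G) c).toContinuousLinearEquiv : UE μ (L2 G) →L[ℂ] UE μ (L2 G)))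
      fun s ξ => UE.map_sS (ind ℂ s) c ξ)
    (XUa_inv (T := ((UE.sS μ (L2 G) fun n => (c n)⁻¹).toContinuousLinearEquiv : UE μ (L2 G) →L[ℂ] UE μ (L2 G)))
      fun s ξ => UE.map_sS (ind ℂ s) (fun n => (c n)⁻¹) ξ) ξ
  exact h

theorem Mf_sSU {f : G → ℂ} (c : ℕ → G1) (x : XUa μ R) : sSU μ R c (Mf μ R f x) = Mf μ R f (sSU μ R c x) := by
  apply Subtype.ext
  rw [coe_sSU, coe_Mf, coe_Mf, coe_sSU, UE.map_sS]

theorem sSU_XBU (c : ℕ → G1) (k : G) (x : XUa μ R) : sSU μ R c (XBU R k x) = XBU R k (sSU μ R c x) := by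
  apply Subtype.ext
  change UE.sS μ (L2 G) c (UE.map μ ((rhoU k).toContinuousLinearEquiv : L2 G →L[ℂ] L2 G) (x : UE μ (L2 G))) =
    UE.map μ ((rhoU k).toContinuousLinearEquiv : L2 G →L[ℂ] L2 G) (UE.sS μ (L2 G) c (x : UE μ (L2 G)))
  rw [UE.map_sS]

variable [TopologicalSpace G1]

/-- Sequences with `c n → 1` act only by the shift of the base point. -/
theorem KK_near (h3 : Tendsto (fun g : G1 => μ {x | a.a g x ≠ 1}) (𝓝 1) (𝓝 0)) {b' c : ℕ → G1}
    (hc : Tendsto c (hyperfilter ℕ : Filter ℕ) (𝓝 1)) (hb : ∀ n, b' n = c n * b n) (φ : XL μ (L2 G)) :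
    KK μ a E b' φ = UE.sS μ (L2 G) c (KK μ a E b φ) := by
  refine xl_induction (P := fun φ => KK μ a E b' φ = UE.sS μ (L2 G) c (KK μ a E b φ)) (fun s hs v => ?_)
    (fun f g h1 h2 => by rw [map_add, map_add, map_add, h1, h2])
    (isClosed_eq (KK μ a E b').continuous ((UE.sS μ (L2 G) c).continuous.comp (KK μ a E b).continuous)) φ
  set ψ : XL μ (L2 G) := xE μ (L2 G) s (cst μ v) with hψ
  refine UE.eq ?_
  rw [val_KK, UE.val_sS, val_KK, us_mk]
  rw [← sub_eq_zero, ← norm_eq_zero]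
  have e1 : UP.mk (KS μ a E b' ψ) - UP.mk (bseqS (bo_uni fun n => kp μ (L2 G) (c n)) (KS μ a E b ψ)) =
      UP.mk (KS μ a E b' ψ + (-1 : ℂ) • bseqS (bo_uni fun n => kp μ (L2 G) (c n)) (KS μ a E b ψ)) := by
    rw [UP.mk_add, UP.mk_smul, neg_smul, one_smul, sub_eq_add_neg]
  rw [e1]
  have h1 := UP.tendsto_norm (KS μ a E b' ψ + (-1 : ℂ) • bseqS (bo_uni fun n => kp μ (L2 G) (c n)) (KS μ a E b ψ))
  refine tendsto_nhds_unique h1 ?_
  -- the pointwise bound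
  have hψv : ∀ᵐ x ∂μ, ‖ψ x‖ ≤ ‖v‖ := by
    filter_upwards [xE_apply hs (cst μ v), cst_apply (μ := μ) v] with x h2 h3
    rw [hψ, h2, h3, norm_smul]
    refine mul_le_of_le_one_left (norm_nonneg _) ?_
    by_cases h : x ∈ s <;> simp [h]
  have hn : ∀ n, ‖(KS μ a E b' ψ + (-1 : ℂ) • bseqS (bo_uni fun n => kp μ (L2 G) (c n)) (KS μ a E b ψ)).1 n‖ ^ 2 ≤
      (2 * ‖v‖) ^ 2 * (μ {x | a.a (c n) x ≠ 1}).toReal := by
    intro n
    have hmeas : MeasurableSet {x | a.a (c n) ((c n)⁻¹ • x) ≠ 1} := by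
      have h := (measurable_const_smul (c n)⁻¹) (a.meas (c n) 1)
      exact h.compl
    have hμ : μ {x | a.a (c n) ((c n)⁻¹ • x) ≠ 1} = μ {x | a.a (c n) x ≠ 1} :=
      (measurePreserving_smul (c n)⁻¹ μ).measure_preimage (a.meas (c n) 1).compl.nullMeasurableSet
    have hD : ∀ᵐ x ∂μ, ‖((KS μ a E b' ψ + (-1 : ℂ) • bseqS (bo_uni fun n => kp μ (L2 G) (c n))
        (KS μ a E b ψ)).1 n : XL μ (L2 G)) x‖ ^ 2 ≤
        ({x | a.a (c n) ((c n)⁻¹ • x) ≠ 1} : Set X).indicator (fun _ => (2 * ‖v‖) ^ 2) x := by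
      have e2 : ((KS μ a E b' ψ + (-1 : ℂ) • bseqS (bo_uni fun n => kp μ (L2 G) (c n))
          (KS μ a E b ψ)).1 n : XL μ (L2 G)) = WW μ a E (b' n) ψ - kp μ (L2 G) (c n) (WW μ a E (b n) ψ) := by
        change WW μ a E (b' n) ψ + (-1 : ℂ) • kp μ (L2 G) (c n) (WW μ a E (b n) ψ) = _
        rw [neg_smul, one_smul, sub_eq_add_neg]
      have e3 : WW μ a E (b' n) ψ = vg μ a E.U (c n) (WW μ a E (b n) ψ) := by
        rw [hb n]
        change vg μ a E.U (c n * b n) _ = _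
        rw [vg_mul]
        rfl
      rw [e2, e3]
      have q1 : ∀ᵐ x ∂μ, ‖WW μ a E (b n) ψ ((c n)⁻¹ • x)‖ ≤ ‖v‖ := by
        have q2 : ∀ᵐ x ∂μ, ‖WW μ a E (b n) ψ x‖ ≤ ‖v‖ := by
          filter_upwards [WW_apply (μ := μ) a E (b n) ψ,
            (measurePreserving_smul (b n)⁻¹ μ).quasiMeasurePreserving.ae hψv] with x h4 h5
          rw [h4, LinearIsometryEquiv.norm_map, LinearIsometryEquiv.norm_map]
          exact h5
        exact (measurePreserving_smul (c n)⁻¹ μ).quasiMeasurePreserving.ae q2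
      filter_upwards [vg_apply a E.U (c n) (WW μ a E (b n) ψ), kp_apply (c n) (WW μ a E (b n) ψ), q1,
        Lp.coeFn_sub (vg μ a E.U (c n) (WW μ a E (b n) ψ)) (kp μ (L2 G) (c n) (WW μ a E (b n) ψ))] with x h4 h5 h6 h7
      rw [h7, Pi.sub_apply, h4, h5]
      unfold Set.indicator
      split_ifs with h8
      · have h9 : ‖E.U (a.a (c n) ((c n)⁻¹ • x)) (WW μ a E (b n) ψ ((c n)⁻¹ • x)) -
            WW μ a E (b n) ψ ((c n)⁻¹ • x)‖ ≤ 2 * ‖v‖ := by
          refine (norm_sub_le _ _).trans ?_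
          rw [LinearIsometryEquiv.norm_map]
          linarith
        exact pow_le_pow_left₀ (norm_nonneg _) h9 2
      · have h9 : a.a (c n) ((c n)⁻¹ • x) = 1 := by
          by_contra h10
          exact h8 h10
        rw [h9, map_one]
        simp
    rw [xl_norm_sq]
    have h10 : Integrable (({x | a.a (c n) ((c n)⁻¹ • x) ≠ 1} : Set X).indicator fun _ => (2 * ‖v‖) ^ 2) μ :=
      (integrable_const _).indicator hmeas
    refine (integral_mono_ae (xl_int _) h10 hD).trans (le_of_eq ?_)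
    rw [integral_indicator hmeas, setIntegral_const, smul_eq_mul, mul_comm, ← hμ]
    rfl
  have h5 : Tendsto (fun n => (2 * ‖v‖) ^ 2 * (μ {x | a.a (c n) x ≠ 1}).toReal) (hyperfilter ℕ : Filter ℕ) (𝓝 0) := by
    have h6 : Tendsto (fun n => μ {x | a.a (c n) x ≠ 1}) (hyperfilter ℕ : Filter ℕ) (𝓝 0) := h3.comp hc
    have h7 := (ENNReal.tendsto_toReal ENNReal.zero_ne_top).comp h6
    have h8 := h7.const_mul ((2 * ‖v‖) ^ 2)
    simpa using h8
  have h6 : Tendsto (fun n => ‖(KS μ a E b' ψ + (-1 : ℂ) • bseqS (bo_uni fun n => kp μ (L2 G) (c n))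
      (KS μ a E b ψ)).1 n‖ ^ 2) (hyperfilter ℕ : Filter ℕ) (𝓝 0) :=
    squeeze_zero (fun n => by positivity) hn h5
  have h7 := h6.sqrt
  rw [Real.sqrt_zero] at h7
  refine h7.congr fun n => ?_
  exact Real.sqrt_sq (norm_nonneg _)

/-- **Contracted elements** act only by the shift of the base point. -/
theorem Tb_contr (h3 : Tendsto (fun g : G1 => μ {x | a.a g x ≠ 1}) (𝓝 1) (𝓝 0)) {q : G1}
    (hq : Tendsto (fun n => b n * q * (b n)⁻¹) (hyperfilter ℕ : Filter ℕ) (𝓝 1)) (φ : XL μ (L2 G)) :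
    Tb μ a E R b (Vq μ a E q φ) = sSU μ R (fun n => b n * q * (b n)⁻¹) (Tb μ a E R b φ) := by
  rw [Tb_V, KK_near (b := b) h3 hq (fun n => by group) φ, XPpr_sS, Tb_eq]

end Shift

end Pool.Agent.Helper78.BM
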