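import Pool.Agent.Helper78.BM.Bd
import Pool.Agent.Helper84.FR.ET

/-!
# Project FP (MP_0f6f3f_an), boundary map: elements commuting with the sequence

`T V_q = opL q T` for `q` in the centraliser of `b` (`Tb_cen`), and `opL q` commutes with the functions which are uniformly continuous at infinity (`opL_Mf`).
-/

set_option autoImplicit false
set_option linter.unusedSectionVars false

open MeasureTheory Filter Topology

namespace Pool.Agent.Helper78.BM

open Pool.Agent.Helper84 Pool.Agent.Helper84.GN Pool.Agent.Helper84.GN.S3 Pool.Agent.Helper84.GN.S3.X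
open Pool.Agent.Helper84.NI Pool.Agent.Helper84.GVN Pool.Agent.Helper90.RK
open Pool.Agent.Helper96.RK Pool.Agent.Helper66.FR Pool.Agent.Helper84.FR Pool.Agent.Helper55.FR

variable {G1 X G Λ : Type} [Group G1] [TopologicalSpace G1] [IsTopologicalGroup G1] [MeasurableSpace X] [MulAction G1 X] [MeasurableConstSMul G1 X]
  [Group G] [Group Λ] [Countable Λ] {μ : Measure X} [SMulInvariantMeasure G1 X μ] [IsProbabilityMeasure μ]
  {a : Cocy G1 X Λ} {E : Emb Λ G} {R : Reg G} {b : ℕ → G1}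

/-- The limit of the operators `ZZ q` on `XUa`. -/
noncomputable abbrev oL (μ : Measure X) [SMulInvariantMeasure G1 X μ] [IsProbabilityMeasure μ] (a : Cocy G1 X Λ)
    (E : Emb Λ G) (R : Reg G) (b : ℕ → G1) (q : cen b) : XUa μ R →L[ℂ] XUa μ R :=
  opL (xmUa μ b R) (cres a (cen b)) (CRep.ext (XAU R) E) q

theorem uhomU : UHom (xmUa μ b R) (CRep.ext (XAU R) E) := uhom_ext E (mrep_XU (μ := μ) (R := R) b).hA

theorem oL_py (q : cen b) {D : Set X} (hD : MeasurableSet D) (x : XUa μ R) :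
    oL μ a E R b q ((pyU μ b R).p D x) = (pyU μ b R).p ((fun x => (q : G1)⁻¹ • x) ⁻¹' D) (oL μ a E R b q x) := by
  have hc : Mea ((cres a (cen b)).a q) := (cres a (cen b)).meas q
  have h1 := tw_comm (xmUa μ b R).px (CRep.ext (XAU R) E) (uhomU (μ := μ) (R := R) (b := b) (E := E)).px hc
    (T := (pyU μ b R).p D)
    (fun A hA ξ => ((xmUa μ b R).comm A D hA hD ξ).symm)
    (fun l ξ => (((uhomU (μ := μ) (R := R) (b := b) (E := E)) l).y D hD ξ).symm) x
  change (xmUa μ b R).S q (tw (xmUa μ b R).px (CRep.ext (XAU R) E) ((cres a (cen b)).a q) ((pyU μ b R).p D x)) = _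
  rw [← h1]
  exact (xmUa μ b R).Sy q D hD _

theorem oL_XBU (q : cen b) (k : G) (x : XUa μ R) :
    oL μ a E R b q (XBU R k x) = XBU R k (oL μ a E R b q x) := by
  have hT : ∀ l ξ, ((XBU (μ := μ) R k).toContinuousLinearEquiv : XUa μ R →L[ℂ] XUa μ R) ((CRep.ext (XAU R) E).U l ξ) =
      (CRep.ext (XAU R) E).U l (((XBU (μ := μ) R k).toContinuousLinearEquiv : XUa μ R →L[ℂ] XUa μ R) ξ) := fun l ξ =>
    map_ext (T := ((XBU (μ := μ) R k).toContinuousLinearEquiv : XUa μ R →L[ℂ] XUa μ R))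
      (fun g x => (comm2_XU (μ := μ) R g k x).symm) E l ξ
  exact (opL_nat (xmUa μ b R) (cres a (cen b)) (uhomU (μ := μ) (R := R) (b := b) (E := E))
    (uhomU (μ := μ) (R := R) (b := b) (E := E)) ((mrep_XU b).hB k) hT q x).symm

theorem Tb_one : Tb μ a E R b (cst μ (dl 1)) = XPpr R (vec μ a E b) := by
  have h := TT_one (μ := μ) (a := a) (E := E) (R := R) (b := b) 1
  simpa using h

/-- Elements of the centraliser. -/
theorem Tb_cen (q : cen b) (φ : XL μ (L2 G)) :
    Tb μ a E R b (Vq μ a E (q : G1) φ) = oL μ a E R b q (Tb μ a E R b φ) := by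
  have h0 : Tb μ a E R b (Vq μ a E (q : G1) (cst μ (dl 1))) = oL μ a E R b q (Tb μ a E R b (cst μ (dl 1))) := by
    rw [Tb_V, Tb_one]
    have h1 : KK μ a E (fun n => b n * (q : G1)) (cst μ (dl 1)) = vec μ a E fun n => b n * (q : G1) := by
      refine UE.eq ?_
      rw [val_KK, vec_eq, UE.val_mk]
      congr 1
      apply Subtype.ext
      funext n
      exact WW_one _
    rw [h1]
    have h2 : (vec μ a E fun n => b n * (q : G1)) = vec μ a E fun n => (q : G1) * b n := by
      congr 1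
      funext n
      exact mem_cen.1 q.2 n
    rw [h2, ← opL_vec q, XPpr_opL]
  have h : (Tb μ a E R b).comp (Vq μ a E (q : G1)) = (oL μ a E R b q).comp (Tb μ a E R b) := by
    refine xl_clm_ext fun s hs k => ?_
    have e1 : xE μ (L2 G) s (cst μ (dl k)) = xE μ (L2 G) s (Wk μ k (cst μ (dl 1))) := by
      rw [cl_cst]
      congr 2
      change dl k = lamU k (dl 1)
      rw [lamU_dl, mul_one]
    have hs' : MeasurableSet ((fun x => (q : G1)⁻¹ • x) ⁻¹' s) := (measurable_const_smul _) hs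
    change Tb μ a E R b (Vq μ a E (q : G1) (xE μ (L2 G) s (cst μ (dl k)))) =
      oL μ a E R b q (Tb μ a E R b (xE μ (L2 G) s (cst μ (dl k))))
    have e2 : Vq μ a E (q : G1) (Wk μ k (cst μ (dl 1))) = Wk μ k (Vq μ a E (q : G1) (cst μ (dl 1))) :=
      (cl_vg a (A0 := jjR E) (A1 := jjR E)
        (T := ((lamU k).toContinuousLinearEquiv : L2 G →L[ℂ] L2 G))
        (fun l v => ((E.conj.comm l).jjU_lam k v).symm) (q : G1) (cst μ (dl 1))).symm
    rw [e1, vg_xE a (jjR E) (q : G1) hs, Tb_xE hs', e2, Tb_W, h0, Tb_xE hs, oL_py q hs, Tb_W, oL_XBU]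
  exact DFunLike.congr_fun h φ

/-- The operators `oL q` commute with the functions which are uniformly continuous at infinity. -/
theorem oL_Mf {pd : PD G} (hP : PLf R pd) {f : G → ℂ} (hf : AV R pd f) (q : cen b) (x : XUa μ R) :
    oL μ a E R b q (Mf μ R f x) = Mf μ R f (oL μ a E R b q x) := by
  have hH : (xmUa μ b R).Hom (xmUa μ b R) (Mf μ R f) := hom_rst (xmU_hom b (mulop f)) _ _ _
  exact (opL_nat (xmUa μ b R) (cres a (cen b)) (uhomU (μ := μ) (R := R) (b := b) (E := E))
    (uhomU (μ := μ) (R := R) (b := b) (E := E)) (T := Mf μ R f) hH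
    (fun l ξ => map_ext (T := Mf μ R f) (fun g x => (Mf_left hP hf g x).symm) E l ξ) q x).symm

end Pool.Agent.Helper78.BM
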