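import Pool.Agent.Helper96.FR.Lat3
import Pool.Agent.Helper66.FR.Zt1

/-!
# Project FP (MP_0f6f3f_an), boundary map: lattices, general lemmas

`kcont_of`: strong continuity of a continuous measure preserving action. `inv_abs`: equivariant maps of a homogeneous space.
-/

set_option autoImplicit false
set_option linter.unusedSectionVars false

open MeasureTheory Filter Topology
open scoped Pointwise ENNReal

namespace Pool.Agent.Helper78.BM

open Pool.Agent.Helper66.FR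

section K

variable {G X : Type} [Group G] [TopologicalSpace G] [IsTopologicalGroup G] [TopologicalSpace X] [MulAction G X]
  [ContinuousSMul G X] [MeasurableSpace X] [BorelSpace X] {ν : Measure X} [IsFiniteMeasure ν]

theorem kcont_of [ν.Regular] [T2Space X] (hmp : ∀ g : G, MeasurePreserving (fun x => g • x) ν ν) {D : Set X} (hD : MeasurableSet D) :
    Tendsto (fun g : G => ν (symmDiff ((fun x => g • x) ⁻¹' D) D)) (𝓝 1) (𝓝 0) := by
  have key : ∀ ε : ℝ≥0∞, ε ≠ 0 → ∀ᶠ g in 𝓝 (1 : G), ν (D \ ((fun x => g • x) ⁻¹' D)) ≤ ε + ε := by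
    intro ε hε
    obtain ⟨K, hKD, hK, hKm⟩ := hD.exists_isCompact_sdiff_lt (measure_ne_top ν D) hε
    obtain ⟨U, hDU, hU, -, hUm⟩ := hD.exists_isOpen_sdiff_lt (measure_ne_top ν D) hε
    have h1 : ∀ᶠ g in 𝓝 (1 : G), ∀ x ∈ K, g • x ∈ U := by
      refine hK.eventually_forall_of_forall_eventually fun x hx => ?_
      have hc : Continuous fun z : G × X => z.1 • z.2 := continuous_smul
      have h2 : Tendsto (fun z : G × X => z.1 • z.2) (𝓝 (1, x)) (𝓝 ((1 : G) • x)) := hc.tendsto (1, x)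
      refine h2.eventually_mem (hU.mem_nhds ?_)
      rw [one_smul]
      exact hDU (hKD hx)
    filter_upwards [h1] with g hg
    have hsub : D \ ((fun x => g • x) ⁻¹' D) ⊆ (D \ K) ∪ ((fun x => g • x) ⁻¹' (U \ D)) := by
      rintro x ⟨hx, hx'⟩
      by_cases hxK : x ∈ K
      · exact Or.inr ⟨hg x hxK, hx'⟩
      · exact Or.inl ⟨hx, hxK⟩
    calc ν (D \ ((fun x => g • x) ⁻¹' D)) ≤ ν (D \ K) + ν ((fun x => g • x) ⁻¹' (U \ D)) :=
          (measure_mono hsub).trans (measure_union_le _ _)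
      _ = ν (D \ K) + ν (U \ D) := by
          rw [(hmp g).measure_preimage (hU.measurableSet.diff hD).nullMeasurableSet]
      _ ≤ ε + ε := add_le_add hKm.le hUm.le
  rw [ENNReal.tendsto_nhds_zero]
  intro ε hε
  obtain ⟨δ, hδ, hδε⟩ : ∃ δ : ℝ≥0∞, δ ≠ 0 ∧ (δ + δ) + (δ + δ) = ε := by
    refine ⟨ε / 2 / 2, (ENNReal.half_pos (ENNReal.half_pos hε.ne').ne').ne', ?_⟩
    rw [ENNReal.add_halves, ENNReal.add_halves]
  have hi : Tendsto (fun g : G => g⁻¹) (𝓝 1) (𝓝 1) := by
    have h : Tendsto (fun g : G => g⁻¹) (𝓝 1) (𝓝 (1 : G)⁻¹) := tendsto_inv 1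
    rwa [inv_one] at h
  filter_upwards [key δ hδ, hi.eventually (key δ hδ)] with g h1 h2
  have h3 : ν (((fun x => g • x) ⁻¹' D) \ D) = ν (D \ ((fun x => g⁻¹ • x) ⁻¹' D)) := by
    have hm : MeasurableSet (D \ ((fun x => g⁻¹ • x) ⁻¹' D)) := hD.diff ((hmp g⁻¹).measurable hD)
    rw [← (hmp g).measure_preimage hm.nullMeasurableSet]
    congr 1
    ext x
    simp
  rw [symmDiff_def]
  calc ν ((((fun x => g • x) ⁻¹' D) \ D) ⊔ (D \ ((fun x => g • x) ⁻¹' D)))
      ≤ ν (((fun x => g • x) ⁻¹' D) \ D) + ν (D \ ((fun x => g • x) ⁻¹' D)) := measure_union_le _ _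
    _ ≤ (δ + δ) + (δ + δ) := by
        rw [h3]
        exact add_le_add h2 h1
    _ = ε := hδε

end K

section I

variable {G X Γ H : Type} [Group G] [TopologicalSpace G] [IsTopologicalGroup G] [MeasurableSpace G] [BorelSpace G]
  [SecondCountableTopology G] [LocallyCompactSpace G] [MeasurableSpace X] [MulAction G X] {ν : Measure X}
  [IsProbabilityMeasure ν] [Group Γ] [Countable Γ] [NormedAddCommGroup H] [InnerProductSpace ℂ H]

/-- Equivariant maps of a homogeneous space. -/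
theorem inv_abs (hmp : ∀ g : G, MeasurePreserving (fun x => g • x) ν ν)
    (hsm : Measurable fun p : G × X => p.1 • p.2) (o : X) (sec : X → G) (hsec : Measurable sec) (hso : ∀ x, sec x • o = x)
    (j : Γ →* G) (hj : ∀ l, j l • o = o) (r : G → Γ) (hr : ∀ l, MeasurableSet (r ⁻¹' {l})) (hrl : ∀ g l, r (g * j l) = r g * l)
    (T : Γ →* (H ≃ₗᵢ[ℂ] H)) {φ : X → H} (hφ : StronglyMeasurable φ)
    (h : ∀ g : G, ∀ᵐ x ∂ν, φ (g • x) = T (r (g * sec x)) (φ x)) :
    ∃ v : H, (∀ l, T l v = v) ∧ ∀ᵐ x ∂ν, φ x = v := by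
  let m0 : Measure G := Measure.haar
  have hne : ∀ {p : G → Prop}, (∀ᵐ g ∂m0, p g) → ∃ g, p g := fun hp => hp.exists
  have hqr : ∀ (g : G) {p : G → Prop}, (∀ᵐ h ∂m0, p h) → ∀ᵐ h ∂m0, p (h * g) := fun g p hp =>
    (quasiMeasurePreserving_mul_right m0 g).ae hp
  -- joint measurability
  have hm1 : StronglyMeasurable fun p : G × X => φ (p.1 • p.2) := hφ.comp_measurable hsm
  have hc : Measurable fun p : G × X => p.1 * sec p.2 := measurable_fst.mul (hsec.comp measurable_snd)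
  have hm2 : StronglyMeasurable fun p : G × X => T (r (p.1 * sec p.2)) (φ p.2) := by
    have h1 : FM 1 fun p : G × X => ((T (r (p.1 * sec p.2))).toContinuousLinearEquiv : H →L[ℂ] H) :=
      FM.mea (c := fun p : G × X => r (p.1 * sec p.2)) (fun l => hc (hr l))
        (w := fun l => ((T l).toContinuousLinearEquiv : H →L[ℂ] H)) zero_le_one fun l v => by
          rw [one_mul]
          exact (LinearIsometryEquiv.norm_map (T l) v).le
    exact h1.sm (hφ.comp_measurable measurable_snd)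
  have hN : MeasurableSet {p : G × X | φ (p.1 • p.2) = T (r (p.1 * sec p.2)) (φ p.2)} := hm1.measurableSet_eq_fun hm2
  have h2 : ∀ᵐ x ∂ν, ∀ᵐ g ∂m0, φ (g • x) = T (r (g * sec x)) (φ x) :=
    (Measure.ae_ae_comm hN).1 (Eventually.of_forall h)
  obtain ⟨x₀, hx₀⟩ := h2.exists
  have h3 : ∀ᵐ g ∂m0, φ (g • o) = T (r g) (φ x₀) := by
    have h4 := hqr (sec x₀)⁻¹ hx₀
    filter_upwards [h4] with g hg
    rw [mul_smul, inv_mul_cancel_right] at hg
    have h5 : (sec x₀)⁻¹ • x₀ = o := inv_smul_eq_iff.2 (hso x₀).symm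
    rwa [h5] at hg
  have hT : ∀ l, T l (φ x₀) = φ x₀ := by
    intro l
    have h4 := hqr (j l) h3
    obtain ⟨g, hg1, hg2⟩ := hne (h3.and h4)
    rw [mul_smul, hj, hrl, map_mul] at hg2
    have h5 : T (r g) (φ x₀) = T (r g) (T l (φ x₀)) := by
      rw [← hg1, hg2]
      rfl
    exact ((T (r g)).injective h5).symm
  refine ⟨φ x₀, hT, ?_⟩
  have h6 : ∀ᵐ g ∂m0, φ (g • o) = φ x₀ := by
    filter_upwards [h3] with g hg
    rw [hg, hT]
  have h7 : ∀ x : X, ∀ᵐ g ∂m0, φ (g • x) = φ x₀ := by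
    intro x
    filter_upwards [hqr (sec x) h6] with g hg
    rwa [mul_smul, hso] at hg
  have hM : MeasurableSet {p : G × X | φ (p.1 • p.2) = φ x₀} := hm1.measurableSet_eq_fun stronglyMeasurable_const
  have h8 : ∀ᵐ g ∂m0, ∀ᵐ x ∂ν, φ (g • x) = φ x₀ := (Measure.ae_ae_comm hM).2 (Eventually.of_forall h7)
  obtain ⟨g, hg⟩ := hne h8
  have hM2 : MeasurableSet {x : X | φ x = φ x₀} := hφ.measurableSet_eq_fun stronglyMeasurable_const
  have h9 : ν ((fun x => g • x) ⁻¹' {x : X | φ x = φ x₀}ᶜ) = 0 := hg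
  rw [(hmp g).measure_preimage hM2.compl.nullMeasurableSet] at h9
  exact h9

end I

end Pool.Agent.Helper78.BM
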